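import Mathlib

/-!
Central extensions of elementary abelian 2-groups: basic lemmas.
-/

namespace Pool.Agent.Lib.MP_882835_al

open Subgroup

open scoped Classical

section General

variable {A : Type} [Group A]

theorem mem_sup_zpowers {S : Subgroup A} {g : A} (h2 : g * g ∈ S)
    (hn : ∀ s ∈ S, g * s * g⁻¹ ∈ S) (x : A) :
    x ∈ S ⊔ zpowers g ↔ x ∈ S ∨ g * x ∈ S := by
  have hn' : ∀ s ∈ S, g⁻¹ * s * g ∈ S := by
    intro s hs
    have := S.mul_mem (S.mul_mem (S.inv_mem h2) (hn s hs)) h2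
    convert this using 1
    group
  let K : Subgroup A :=
    { carrier := {x | x ∈ S ∨ g * x ∈ S}
      one_mem' := Or.inl S.one_mem
      mul_mem' := by
        rintro x y (hx | hx) (hy | hy)
        · exact Or.inl (S.mul_mem hx hy)
        · right
          have := S.mul_mem (hn x hx) hy
          convert this using 1
          group
        · right
          have := S.mul_mem hx hy
          convert this using 1
          group
        · left
          have := S.mul_mem (S.mul_mem (hn' _ hx) (S.inv_mem h2)) hy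
          convert this using 1
          group
      inv_mem' := by
        rintro x (hx | hx)
        · exact Or.inl (S.inv_mem hx)
        · right
          have := S.mul_mem (hn _ (S.inv_mem hx)) h2
          convert this using 1
          group }
  constructor
  · intro hx
    have hle : S ⊔ zpowers g ≤ K := by
      refine sup_le (fun s hs => Or.inl hs) ?_
      rw [zpowers_le]
      exact Or.inr h2
    exact hle hx
  · rintro (hx | hx)
    · exact mem_sup_left hx
    · have h1 : g * x ∈ S ⊔ zpowers g := mem_sup_left hx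
      have h3 : g ∈ S ⊔ zpowers g := mem_sup_right (mem_zpowers g)
      exact (mul_mem_cancel_left h3).1 h1

theorem card_sup_zpowers [Finite A] {S : Subgroup A} {g : A} (h2 : g * g ∈ S)
    (hn : ∀ s ∈ S, g * s * g⁻¹ ∈ S) (hg : g ∉ S) :
    Nat.card (S ⊔ zpowers g : Subgroup A) = 2 * Nat.card S := by
  have h1 : ((S ⊔ zpowers g : Subgroup A) : Set A) = (S : Set A) ∪ (fun x => g⁻¹ * x) '' S := by
    ext x
    simp only [SetLike.mem_coe, mem_sup_zpowers h2 hn, Set.mem_union, Set.mem_image]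
    constructor
    · rintro (h | h)
      · exact Or.inl h
      · exact Or.inr ⟨_, h, by group⟩
    · rintro (h | ⟨y, hy, rfl⟩)
      · exact Or.inl h
      · right; simpa using hy
  have h3 : Disjoint (S : Set A) ((fun x => g⁻¹ * x) '' S) := by
    rw [Set.disjoint_left]
    rintro x hx ⟨y, hy, rfl⟩
    apply hg
    have := S.mul_mem hy (S.inv_mem hx)
    simpa using this
  have e1 : Nat.card (S ⊔ zpowers g : Subgroup A) = ((S ⊔ zpowers g : Subgroup A) : Set A).ncard :=
    rfl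
  have e2 : Nat.card S = (S : Set A).ncard := rfl
  rw [e1, e2, h1, Set.ncard_union_eq h3, Set.ncard_image_of_injective _ (mul_right_injective _)]
  ring

end General

section Comm

variable {A : Type} [CommGroup A]

theorem mem_sup_comm (h : ∀ a : A, a * a = 1) (S : Subgroup A) (g x : A) :
    x ∈ S ⊔ zpowers g ↔ x ∈ S ∨ g * x ∈ S :=
  mem_sup_zpowers (by rw [h]; exact S.one_mem) (fun s hs => by simpa using hs) x

theorem card_sup_comm [Finite A] (h : ∀ a : A, a * a = 1) {S : Subgroup A} {g : A} (hg : g ∉ S) :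
    Nat.card (S ⊔ zpowers g : Subgroup A) = 2 * Nat.card S :=
  card_sup_zpowers (by rw [h]; exact S.one_mem) (fun s hs => by simpa using hs) hg

theorem card_sup_inf_ker [Finite A] {B : Type} [Group B] (h : ∀ a : A, a * a = 1) {S : Subgroup A}
    {g : A} (hg : g ∉ S) (f : A →* B) :
    Nat.card ((S ⊔ zpowers g) ⊓ f.ker : Subgroup A)
      = (if ∃ x ∈ S, f (g * x) = 1 then 2 else 1) * Nat.card (S ⊓ f.ker : Subgroup A) := by
  split_ifs with hx
  · obtain ⟨x, hx, hfx⟩ := hx
    have h1 : (S ⊔ zpowers g) ⊓ f.ker = (S ⊓ f.ker) ⊔ zpowers (g * x) := by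
      ext y
      simp only [mem_inf, mem_sup_comm h, MonoidHom.mem_ker]
      constructor
      · rintro ⟨h2 | h2, h3⟩
        · exact Or.inl ⟨h2, h3⟩
        · refine Or.inr ⟨?_, by rw [map_mul, hfx, h3, one_mul]⟩
          have := S.mul_mem h2 hx
          rwa [mul_right_comm] at this
      · rintro (⟨h2, h3⟩ | ⟨h2, h3⟩)
        · exact ⟨Or.inl h2, h3⟩
        · refine ⟨Or.inr ?_, by rwa [map_mul, hfx, one_mul] at h3⟩
          rw [mul_right_comm] at h2
          exact (S.mul_mem_cancel_right hx).1 h2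
    rw [h1, card_sup_comm h]
    intro h2
    exact hg ((S.mul_mem_cancel_right hx).1 h2.1)
  · have h1 : (S ⊔ zpowers g) ⊓ f.ker = S ⊓ f.ker := by
      ext y
      simp only [mem_inf, mem_sup_comm h, MonoidHom.mem_ker]
      constructor
      · rintro ⟨h2 | h2, h3⟩
        · exact ⟨h2, h3⟩
        · exact (hx ⟨g * y, h2, by rw [← mul_assoc, h, one_mul, h3]⟩).elim
      · rintro ⟨h2, h3⟩
        exact ⟨Or.inl h2, h3⟩
    rw [h1, one_mul]

end Comm

/-- A central extension with elementary abelian kernel and quotient. -/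
structure Ext (G V Z : Type) [Group G] [CommGroup V] [CommGroup Z] where
  p : G →* V
  i : Z →* G
  q : V → Z
  c : V → V → Z
  p_surj : Function.Surjective p
  i_inj : Function.Injective i
  ker : ∀ g, p g = 1 ↔ ∃ z, i z = g
  central : ∀ z g, i z * g = g * i z
  sq : ∀ g, g * g = i (q (p g))
  comm : ∀ g h, g * h = h * g * i (c (p g) (p h))
  zz : ∀ z : Z, z * z = 1

namespace Ext

variable {G V Z : Type} [Group G] [CommGroup V] [CommGroup Z] (E : Ext G V Z)

theorem p_i (z : Z) : E.p (E.i z) = 1 := (E.ker _).2 ⟨z, rfl⟩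

include E in
theorem vv (v : V) : v * v = 1 := by
  obtain ⟨g, rfl⟩ := E.p_surj v
  rw [← map_mul, E.sq, E.p_i]

theorem c_self (v : V) : E.c v v = 1 := by
  obtain ⟨g, rfl⟩ := E.p_surj v
  have := E.comm g g
  apply E.i_inj
  rw [map_one]
  exact (mul_eq_left.1 this.symm)

theorem c_symm (v w : V) : E.c v w = E.c w v := by
  obtain ⟨g, rfl⟩ := E.p_surj v
  obtain ⟨h, rfl⟩ := E.p_surj w
  have h1 := E.comm g h
  rw [E.comm h g, mul_assoc, ← map_mul] at h1
  have h2 : E.c (E.p h) (E.p g) * E.c (E.p g) (E.p h) = 1 := by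
    apply E.i_inj
    rw [map_one]
    exact (mul_eq_left.1 h1.symm)
  have h3 := E.zz (E.c (E.p h) (E.p g))
  exact mul_left_cancel (h2.trans h3.symm)

theorem c_mul (u v w : V) : E.c u (v * w) = E.c u v * E.c u w := by
  obtain ⟨g, rfl⟩ := E.p_surj u
  obtain ⟨h, rfl⟩ := E.p_surj v
  obtain ⟨k, rfl⟩ := E.p_surj w
  have h1 := E.comm g (h * k)
  have h2 : g * (h * k) = h * k * g * E.i (E.c (E.p g) (E.p h) * E.c (E.p g) (E.p k)) := by
    calc g * (h * k) = (g * h) * k := by group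
      _ = h * g * (E.i (E.c (E.p g) (E.p h)) * k) := by rw [E.comm g h]; group
      _ = h * (g * k) * E.i (E.c (E.p g) (E.p h)) := by rw [E.central]; group
      _ = _ := by rw [E.comm g k, mul_comm (E.c (E.p g) (E.p h)), map_mul]; group
  rw [← map_mul]
  apply E.i_inj
  exact mul_left_cancel (h1.symm.trans h2)

theorem c_one (u : V) : E.c u 1 = 1 := by
  have := E.c_mul u 1 1
  rw [mul_one] at this
  exact mul_eq_left.1 this.symm

theorem q_mul (u v : V) : E.q (u * v) = E.q u * E.q v * E.c v u := by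
  obtain ⟨g, rfl⟩ := E.p_surj u
  obtain ⟨h, rfl⟩ := E.p_surj v
  have h1 := E.sq (g * h)
  have h2 : g * h * (g * h) = E.i (E.q (E.p g) * E.q (E.p h) * E.c (E.p h) (E.p g)) := by
    calc g * h * (g * h) = g * (h * g) * h := by group
      _ = (g * g) * h * (E.i (E.c (E.p h) (E.p g)) * h) := by rw [E.comm h g]; group
      _ = (g * g) * (h * h) * E.i (E.c (E.p h) (E.p g)) := by rw [E.central]; group
      _ = _ := by rw [E.sq g, E.sq h, map_mul, map_mul]
  rw [← map_mul]
  apply E.i_inj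
  exact h1.symm.trans h2

theorem q_one : E.q 1 = 1 := by
  have := E.sq 1
  rw [map_one, mul_one] at this
  apply E.i_inj
  rw [map_one]
  exact this.symm

/-- The product extension. -/
def prod : Ext (G × G) (V × V) (Z × Z) where
  p := E.p.prodMap E.p
  i := E.i.prodMap E.i
  q := fun v => (E.q v.1, E.q v.2)
  c := fun v w => (E.c v.1 w.1, E.c v.2 w.2)
  p_surj := E.p_surj.prodMap E.p_surj
  i_inj := E.i_inj.prodMap E.i_inj
  ker := by
    rintro ⟨g, h⟩
    simp only [MonoidHom.coe_prodMap, Prod.map_apply, Prod.mk_eq_one, E.ker, Prod.exists,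
      Prod.mk.injEq]
    constructor
    · rintro ⟨⟨a, ha⟩, ⟨b, hb⟩⟩
      exact ⟨a, b, ha, hb⟩
    · rintro ⟨a, b, ha, hb⟩
      exact ⟨⟨a, ha⟩, ⟨b, hb⟩⟩
  central := fun z g => Prod.ext (E.central z.1 g.1) (E.central z.2 g.2)
  sq := fun g => Prod.ext (E.sq g.1) (E.sq g.2)
  comm := fun g h => Prod.ext (E.comm g.1 h.1) (E.comm g.2 h.2)
  zz := fun z => Prod.ext (E.zz z.1) (E.zz z.2)

theorem card_eq [Finite G] (H : Subgroup G) :
    Nat.card H = Nat.card (H.map E.p) * Nat.card (H.comap E.i) := by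
  have h1 := (E.p.domRestrict H).ker.card_mul_index
  rw [index_ker, MonoidHom.domRestrict_range] at h1
  rw [← h1, mul_comm]
  congr 1
  symm
  refine Nat.card_eq_of_bijective
    (fun z : H.comap E.i => (⟨⟨E.i z.1, z.2⟩, E.p_i z.1⟩ : (E.p.domRestrict H).ker)) ⟨?_, ?_⟩
  · intro a b hab
    apply Subtype.ext
    apply E.i_inj
    exact congrArg (fun x => x.1.1) hab
  · rintro ⟨⟨g, hg⟩, hk⟩
    obtain ⟨z, rfl⟩ := (E.ker g).1 hk
    exact ⟨⟨z, hg⟩, rfl⟩

/-- Squares and commutators of `U` lie in `D`. -/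
def Adm (U : Subgroup V) (D : Subgroup Z) : Prop :=
  ∀ u ∈ U, E.q u ∈ D ∧ ∀ x ∈ U, E.c u x ∈ D

theorem adm_of (H : Subgroup G) : E.Adm (H.map E.p) (H.comap E.i) := by
  rintro _ ⟨g, hg, rfl⟩
  refine ⟨?_, ?_⟩
  · rw [mem_comap, ← E.sq]
    exact H.mul_mem hg hg
  · rintro _ ⟨h, hh, rfl⟩
    rw [mem_comap]
    have h1 := H.mul_mem hg hh
    rw [E.comm g h] at h1
    exact (H.mul_mem_cancel_left (H.mul_mem hh hg)).1 h1

theorem Adm.mono {E : Ext G V Z} {U U' : Subgroup V} {D : Subgroup Z} (h : E.Adm U D) (hU : U' ≤ U) :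
    E.Adm U' D :=
  fun u hu => ⟨(h u (hU hu)).1, fun x hx => (h u (hU hu)).2 x (hU hx)⟩

theorem adm_bot (D : Subgroup Z) : E.Adm ⊥ D := by
  intro u hu
  rw [mem_bot] at hu
  subst hu
  refine ⟨by rw [E.q_one]; exact D.one_mem, fun x _ => ?_⟩
  rw [E.c_symm, E.c_one]
  exact D.one_mem

theorem adm_sup_iff {U : Subgroup V} {D : Subgroup Z} {u : V} {L : Set V}
    (hL1 : ∀ x ∈ L, x ∈ U) (hL2 : ∀ K : Subgroup V, (∀ x ∈ L, x ∈ K) → U ≤ K) :
    E.Adm (U ⊔ zpowers u) D ↔ E.Adm U D ∧ E.q u ∈ D ∧ ∀ x ∈ L, E.c u x ∈ D := by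
  have hu : u ∈ U ⊔ zpowers u := mem_sup_right (mem_zpowers u)
  constructor
  · intro h
    exact ⟨h.mono le_sup_left, (h u hu).1, fun x hx => (h u hu).2 x (mem_sup_left (hL1 x hx))⟩
  · rintro ⟨h1, h2, h3⟩
    let cu : V →* Z := MonoidHom.mk' (E.c u) (E.c_mul u)
    have h4 : ∀ x ∈ U, E.c u x ∈ D := hL2 (D.comap cu) h3
    have form : ∀ x ∈ U ⊔ zpowers u, x ∈ U ∨ ∃ y ∈ U, x = u * y := by
      intro x hx
      rcases (mem_sup_comm E.vv U u x).1 hx with h | h
      · exact Or.inl h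
      · exact Or.inr ⟨_, h, by rw [← mul_assoc, E.vv, one_mul]⟩
    have h5 : ∀ x ∈ U, ∀ y ∈ U ⊔ zpowers u, E.c x y ∈ D := by
      intro x hx y hy
      rcases form y hy with h | ⟨y', hy', rfl⟩
      · exact (h1 x hx).2 y h
      · rw [E.c_mul, E.c_symm x u]
        exact D.mul_mem (h4 x hx) ((h1 x hx).2 y' hy')
    have h6 : ∀ y ∈ U ⊔ zpowers u, E.c u y ∈ D := by
      intro y hy
      rcases form y hy with h | ⟨y', hy', rfl⟩
      · exact h4 y h
      · rw [E.c_mul, E.c_self, one_mul]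
        exact h4 y' hy'
    intro x hx
    rcases form x hx with h | ⟨x', hx', rfl⟩
    · exact ⟨(h1 x h).1, h5 x h⟩
    · refine ⟨?_, fun y hy => ?_⟩
      · rw [E.q_mul, E.c_symm x' u]
        exact D.mul_mem (D.mul_mem h2 (h1 x' hx').1) (h4 x' hx')
      · rw [E.c_symm, E.c_mul, E.c_symm y u, E.c_symm y x']
        exact D.mul_mem (h6 y hy) (h5 x' hx' y hy)

theorem mem_sup_ext {H : Subgroup G} {g : G}
    (h : E.Adm (H.map E.p ⊔ zpowers (E.p g)) (H.comap E.i)) (x : G) :
    x ∈ H ⊔ zpowers g ↔ x ∈ H ∨ g * x ∈ H := by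
  have hu : E.p g ∈ H.map E.p ⊔ zpowers (E.p g) := mem_sup_right (mem_zpowers _)
  refine mem_sup_zpowers ?_ ?_ x
  · rw [E.sq]
    exact (h _ hu).1
  · intro s hs
    have h1 : E.i (E.c (E.p g) (E.p s)) ∈ H := (h _ hu).2 _ (mem_sup_left ⟨s, hs, rfl⟩)
    rw [E.comm g s, mul_assoc s, ← E.central]
    have := H.mul_mem hs h1
    convert this using 1
    group

end Ext

end Pool.Agent.Lib.MP_882835_al
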