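import Pool.Agent.Lib.MP_882835_al.Abs1

/-!
Counting graph subgroups of `G × G` with given image and kernel part.
-/

namespace Pool.Agent.Lib.MP_882835_al

open Subgroup

open scoped Classical

theorem double_count {α β : Type} [Finite α] [Fintype β] (s : Set α) (r : α → β → Prop) (m : ℕ)
    (h : ∀ a ∈ s, {b | r a b}.ncard = m) : ∑ b, {a | a ∈ s ∧ r a b}.ncard = s.ncard * m := by
  have := Fintype.ofFinite α
  have e1 : ∀ b, {a | a ∈ s ∧ r a b}.ncard = ∑ a ∈ s.toFinset, if r a b then 1 else 0 := by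
    intro b
    rw [← Finset.card_filter, Set.ncard_eq_toFinset_card']
    congr 1
    ext a
    simp
  have e2 : ∀ a, {b | r a b}.ncard = ∑ b, if r a b then 1 else 0 := by
    intro a
    rw [← Finset.card_filter, Set.ncard_eq_toFinset_card']
    congr 1
    ext b
    simp
  simp only [e1]
  rw [Finset.sum_comm, Set.ncard_eq_toFinset_card', ← smul_eq_mul, ← Finset.sum_const]
  refine Finset.sum_congr rfl (fun a ha => ?_)
  rw [← e2, h a (by simpa using ha)]

theorem ncard_fiber {α β : Type} [Finite α] [Fintype β] (s : Set α) (f : α → β) :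
    s.ncard = ∑ b, {a | a ∈ s ∧ f a = b}.ncard := by
  rw [double_count s (fun a b => f a = b) 1, mul_one]
  intro a _
  simp

theorem ncard_prod_set {α β : Type} (P : α → Prop) (Q : β → Prop) :
    {z : α × β | P z.1 ∧ Q z.2}.ncard = {a | P a}.ncard * {b | Q b}.ncard := by
  rw [← Set.ncard_prod]
  rfl

theorem ncard_not {α : Type} [Finite α] (P : α → Prop) :
    {a | ¬ P a}.ncard = Nat.card α - {a | P a}.ncard := by
  have := Set.ncard_add_ncard_compl {a | P a}
  have e : {a | P a}ᶜ = {a | ¬ P a} := rfl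
  rw [e] at this
  omega

/-- The subgroup is the graph of a partial map (`b = false`) or of a partial injective map
(`b = true`). -/
def Good {A : Type} [Group A] (b : Bool) (H : Subgroup (A × A)) : Prop :=
  (∀ x ∈ H, x.1 = 1 → x = 1) ∧ (b = true → ∀ x ∈ H, x.2 = 1 → x = 1)

theorem Good.mono {A : Type} [Group A] {b : Bool} {H K : Subgroup (A × A)} (h : Good b H)
    (hK : K ≤ H) : Good b K :=
  ⟨fun x hx => h.1 x (hK hx), fun hb x hx => h.2 hb x (hK hx)⟩

theorem good_bot {A : Type} [Group A] (b : Bool) : Good b (⊥ : Subgroup (A × A)) :=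
  ⟨fun _ hx _ => mem_bot.1 hx, fun _ _ hx _ => mem_bot.1 hx⟩

theorem card_map_of_injOn {A B : Type} [Group A] [Group B] (H : Subgroup A) (f : A →* B)
    (h : ∀ x ∈ H, f x = 1 → x = 1) : Nat.card (H.map f) = Nat.card H := by
  have e1 : Nat.card (H.map f) = ((H.map f : Subgroup B) : Set B).ncard := rfl
  have e2 : Nat.card H = (H : Set A).ncard := rfl
  rw [e1, e2, coe_map, Set.InjOn.ncard_image]
  intro x hx y hy hxy
  have := h (x * y⁻¹) (H.mul_mem hx (H.inv_mem hy)) (by rw [map_mul, map_inv, hxy, mul_inv_cancel])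
  exact mul_inv_eq_one.1 this

namespace Ext

variable {G V Z : Type} [Group G] [CommGroup V] [CommGroup Z] (E : Ext G V Z)

theorem good_comap {b : Bool} {H : Subgroup (G × G)} (h : Good b H) :
    Good b (H.comap E.prod.i) := by
  refine ⟨fun x hx h1 => E.prod.i_inj ?_, fun hb x hx h1 => E.prod.i_inj ?_⟩
  · rw [map_one]
    refine h.1 _ hx ?_
    show E.i x.1 = 1
    rw [h1, map_one]
  · rw [map_one]
    refine h.2 hb _ hx ?_
    show E.i x.2 = 1
    rw [h1, map_one]

theorem map_inf_comap (H : Subgroup G) (K : Subgroup V) :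
    (H ⊓ K.comap E.p).map E.p = H.map E.p ⊓ K := by
  ext v
  simp only [mem_map, mem_inf, mem_comap]
  constructor
  · rintro ⟨g, ⟨h1, h2⟩, rfl⟩
    exact ⟨⟨g, h1, rfl⟩, h2⟩
  · rintro ⟨⟨g, h1, rfl⟩, h2⟩
    exact ⟨g, ⟨h1, h2⟩, rfl⟩

theorem comap_inf_comap (H : Subgroup G) (K : Subgroup V) :
    (H ⊓ K.comap E.p).comap E.i = H.comap E.i := by
  ext z
  simp only [mem_inf, mem_comap, E.p_i, K.one_mem, and_true]

theorem bad_card [Finite G] [Finite Z] (F : G × G →* G) (fV : V × V →* V)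
    (hF : ∀ x, E.p (F x) = fV (E.prod.p x)) (H : Subgroup (G × G))
    (hH : ∀ x ∈ H, F x = 1 → x = 1) (g : G × G) :
    {z : Z | ∃ s ∈ H, F g * E.i z * F s = 1}.ncard
      = if ∃ x ∈ H.map E.prod.p, fV (E.prod.p g * x) = 1
        then Nat.card (H.map E.prod.p ⊓ fV.ker : Subgroup (V × V)) * Nat.card (H.comap E.prod.i)
        else 0 := by
  split_ifs with hx
  · obtain ⟨_, ⟨s0, hs0, rfl⟩, h0⟩ := hx
    rw [← map_mul, ← hF, E.ker, map_mul] at h0
    obtain ⟨z0, hz0⟩ := h0
    set H' := H ⊓ fV.ker.comap E.prod.p with hH'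
    rw [← E.prod.map_inf_comap, ← E.prod.comap_inf_comap H fV.ker, ← E.prod.card_eq, ← hH',
      ← card_map_of_injOn H' F (fun x hx => hH x hx.1)]
    have e1 : Nat.card (H'.map F) = ((H'.map F : Subgroup G) : Set G).ncard := rfl
    rw [e1, ← Set.ncard_image_of_injective _
      (f := fun z => E.i (z0 * z)) (E.i_inj.comp (mul_right_injective z0))]
    congr 1
    ext y
    simp only [Set.mem_image, Set.mem_ofPred_eq, SetLike.mem_coe, mem_map, hH', mem_inf, mem_comap,
      MonoidHom.mem_ker]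
    constructor
    · rintro ⟨z, ⟨s, hs, h1⟩, rfl⟩
      have h2 : F (s⁻¹ * s0) = E.i (z0 * z) := by
        have h3 : (F s)⁻¹ = F g * E.i z := (mul_eq_one_iff_eq_inv.1 h1).symm
        rw [map_mul, map_inv, h3, mul_assoc, E.central, ← mul_assoc, ← hz0, map_mul]
      refine ⟨s⁻¹ * s0, ⟨H.mul_mem (H.inv_mem hs) hs0, ?_⟩, h2⟩
      rw [← hF, h2, E.p_i]
    · rintro ⟨s, ⟨hs, h1⟩, rfl⟩
      rw [← hF, E.ker] at h1
      obtain ⟨z1, hz1⟩ := h1
      refine ⟨z0⁻¹ * z1, ⟨s0 * s⁻¹, H.mul_mem hs0 (H.inv_mem hs), ?_⟩, by rw [← hz1]; congr 1; group⟩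
      rw [map_mul F, map_inv, ← hz1, mul_assoc, ← mul_assoc (E.i _), E.central, ← mul_assoc,
        ← mul_assoc, ← hz0, ← map_inv, ← map_mul, ← map_mul]
      rw [← map_one E.i]
      congr 1
      group
  · rw [Set.ncard_eq_zero, Set.eq_empty_iff_forall_notMem]
    rintro z ⟨s, hs, h1⟩
    apply hx
    refine ⟨_, ⟨s, hs, rfl⟩, ?_⟩
    have := congrArg E.p h1
    rw [map_mul, map_mul, E.p_i, mul_one, map_one, hF, hF] at this
    rw [map_mul, this]

/-- Good subgroups with prescribed image and kernel part. -/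
def Cset (b : Bool) (U : Subgroup (V × V)) (D : Subgroup (Z × Z)) : Set (Subgroup (G × G)) :=
  {H | Good b H ∧ H.map E.prod.p = U ∧ H.comap E.prod.i = D}

/-- The multiplier of one step. -/
noncomputable def mult (_E : Ext G V Z) (f : V × V →* V) (U : Subgroup (V × V)) (u : V × V)
    (D : Subgroup (Z × Z)) : ℕ :=
  Nat.card Z - if ∃ x ∈ U, f (u * x) = 1 then
    Nat.card (U ⊓ f.ker : Subgroup (V × V)) * Nat.card D else 0

theorem step [Finite G] [Fintype Z] (b : Bool) {U : Subgroup (V × V)} {u : V × V} (hu : u ∉ U)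
    {D : Subgroup (Z × Z)} (hadm : E.prod.Adm (U ⊔ zpowers u) D) :
    (E.Cset b (U ⊔ zpowers u) D).ncard * Nat.card D
      = (E.Cset b U D).ncard * (E.mult (MonoidHom.fst V V) U u D
        * (if b = true then E.mult (MonoidHom.snd V V) U u D else Nat.card Z)) := by
  obtain ⟨g0, hg0⟩ := E.prod.p_surj u
  have hp : ∀ z, E.prod.p (g0 * E.prod.i z) = u := fun z => by
    rw [map_mul, E.prod.p_i, mul_one, hg0]
  have hmem : ∀ H ∈ E.Cset b U D, ∀ z x, x ∈ H ⊔ zpowers (g0 * E.prod.i z)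
      ↔ x ∈ H ∨ g0 * E.prod.i z * x ∈ H := by
    intro H hH z x
    apply E.prod.mem_sup_ext
    rw [hp, hH.2.1, hH.2.2]
    exact hadm
  have hnot : ∀ H ∈ E.Cset b U D, ∀ z x, E.prod.p x ∈ U → g0 * E.prod.i z * x ∉ H := by
    intro H hH z x hx h
    apply hu
    have h1 : E.prod.p (g0 * E.prod.i z * x) ∈ U := by
      rw [← hH.2.1]; exact ⟨_, h, rfl⟩
    rw [map_mul, hp] at h1
    exact (U.mul_mem_cancel_right hx).1 h1
  rw [← double_count (E.Cset b (U ⊔ zpowers u) D) (fun H z => g0 * E.prod.i z ∈ H),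
    ← double_count (E.Cset b U D) (fun H z => Good b (H ⊔ zpowers (g0 * E.prod.i z)))]
  · refine Finset.sum_congr rfl (fun z _ => ?_)
    refine Set.ncard_congr' (Set.BijOn.equiv (fun H => H ⊓ U.comap E.prod.p) ?_)
    have hback : ∀ H ∈ {a | a ∈ E.Cset b (U ⊔ zpowers u) D ∧ g0 * E.prod.i z ∈ a},
        H ⊓ U.comap E.prod.p ∈ E.Cset b U D ∧
          (H ⊓ U.comap E.prod.p) ⊔ zpowers (g0 * E.prod.i z) = H := by
      rintro H ⟨hH, hz⟩
      have h1 : H ⊓ U.comap E.prod.p ∈ E.Cset b U D := by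
        refine ⟨hH.1.mono inf_le_left, ?_, ?_⟩
        · rw [E.prod.map_inf_comap, hH.2.1]
          exact inf_eq_right.2 le_sup_left
        · rw [E.prod.comap_inf_comap, hH.2.2]
      refine ⟨h1, le_antisymm (sup_le inf_le_left (by rwa [zpowers_le])) (fun x hx => ?_)⟩
      rw [hmem _ h1]
      have h2 : E.prod.p x ∈ U ⊔ zpowers u := by
        rw [← hH.2.1]; exact ⟨x, hx, rfl⟩
      rcases (mem_sup_comm E.prod.vv U u _).1 h2 with h | h
      · exact Or.inl ⟨hx, h⟩
      · refine Or.inr ⟨H.mul_mem hz hx, ?_⟩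
        show E.prod.p (g0 * E.prod.i z * x) ∈ U
        rw [map_mul, hp]
        exact h
    refine ⟨?_, ?_, ?_⟩
    · intro H hH
      obtain ⟨h1, h2⟩ := hback H hH
      exact ⟨h1, by rw [h2]; exact hH.1.1⟩
    · intro H hH H' hH' h
      have h' : H ⊓ U.comap E.prod.p = H' ⊓ U.comap E.prod.p := h
      rw [← (hback H hH).2, ← (hback H' hH').2, h']
    · rintro H ⟨hH, hg⟩
      refine ⟨H ⊔ zpowers (g0 * E.prod.i z), ⟨⟨hg, ?_, ?_⟩, mem_sup_right (mem_zpowers _)⟩, ?_⟩
      · rw [Subgroup.map_sup, hH.2.1, MonoidHom.map_zpowers, hp]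
      · rw [← hH.2.2]
        ext y
        rw [mem_comap, mem_comap, hmem H hH]
        refine ⟨fun h => h.resolve_right (hnot H hH z _ ?_), Or.inl⟩
        rw [E.prod.p_i]; exact U.one_mem
      · ext y
        simp only [mem_inf, mem_comap, hmem H hH]
        constructor
        · rintro ⟨h | h, h'⟩
          · exact h
          · exact (hnot H hH z y h' h).elim
        · intro h
          exact ⟨Or.inl h, by rw [← hH.2.1]; exact ⟨y, h, rfl⟩⟩
  · intro H hH
    have hg2 : ∀ z, g0 * E.prod.i z * (g0 * E.prod.i z) ∈ H := by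
      intro z
      have := (hmem H hH z _).1 (mem_sup_right (mem_zpowers _))
      refine this.resolve_left (fun h => hnot H hH z 1 (by rw [map_one]; exact U.one_mem) ?_)
      rwa [mul_one]
    have key : ∀ (F : G × G →* G) (z : Z × Z), (∀ x ∈ H, F x = 1 → x = 1) →
        ((∀ x ∈ H ⊔ zpowers (g0 * E.prod.i z), F x = 1 → x = 1)
          ↔ ¬ ∃ s ∈ H, F g0 * F (E.prod.i z) * F s = 1) := by
      intro F z hF
      constructor
      · rintro h ⟨s, hs, h1⟩
        have h2 : g0 * E.prod.i z * s ∈ H ⊔ zpowers (g0 * E.prod.i z) :=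
          mul_mem (mem_sup_right (mem_zpowers _)) (mem_sup_left hs)
        have h3 := h _ h2 (by rw [map_mul, map_mul, h1])
        refine hnot H hH z s (by rw [← hH.2.1]; exact ⟨s, hs, rfl⟩) ?_
        rw [h3]; exact H.one_mem
      · intro h x hx h1
        rcases (hmem H hH z x).1 hx with h2 | h2
        · exact hF x h2 h1
        · refine (h ⟨(g0 * E.prod.i z * x)⁻¹, H.inv_mem h2, ?_⟩).elim
          rw [map_inv, map_mul, h1, mul_one, map_mul, mul_inv_cancel]
    have hset : {z : Z × Z | Good b (H ⊔ zpowers (g0 * E.prod.i z))}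
        = {z : Z × Z | (¬ ∃ s ∈ H, MonoidHom.fst G G g0 * E.i z.1 * MonoidHom.fst G G s = 1) ∧
            ¬ (b = true ∧ ∃ s ∈ H, MonoidHom.snd G G g0 * E.i z.2 * MonoidHom.snd G G s = 1)} := by
      ext z
      simp only [Set.mem_ofPred_eq, Good]
      refine and_congr (key (MonoidHom.fst G G) z hH.1.1) ?_
      rw [not_and]
      exact forall_congr' (fun hb => key (MonoidHom.snd G G) z (hH.1.2 hb))
    rw [hset, ncard_prod_set
      (fun z => ¬ ∃ s ∈ H, MonoidHom.fst G G g0 * E.i z * MonoidHom.fst G G s = 1)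
      (fun z => ¬ (b = true ∧ ∃ s ∈ H, MonoidHom.snd G G g0 * E.i z * MonoidHom.snd G G s = 1)),
      ncard_not, ncard_not,
      E.bad_card (MonoidHom.fst G G) (MonoidHom.fst V V) (fun _ => rfl) H hH.1.1 g0]
    rw [hH.2.1, hH.2.2, hg0]
    congr 1
    split_ifs with hb
    · simp only [hb, true_and]
      rw [E.bad_card (MonoidHom.snd G G) (MonoidHom.snd V V) (fun _ => rfl) H (hH.1.2 hb) g0,
        hH.2.1, hH.2.2, hg0]
      rfl
    · simp [hb]
  · intro H hH
    have h1 : u ∈ H.map E.prod.p := by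
      rw [hH.2.1]; exact mem_sup_right (mem_zpowers _)
    obtain ⟨g1, hg1, h2⟩ := h1
    obtain ⟨z1, hz1⟩ := (E.prod.ker (g0⁻¹ * g1)).1 (by rw [map_mul, map_inv, h2, hg0, inv_mul_cancel])
    have e2 : Nat.card D = (D : Set (Z × Z)).ncard := rfl
    rw [e2, ← Set.ncard_image_of_injective (D : Set (Z × Z)) (mul_right_injective z1)]
    congr 1
    ext z
    simp only [Set.mem_ofPred_eq, Set.mem_image, SetLike.mem_coe, ← hH.2.2, mem_comap]
    constructor
    · intro h
      refine ⟨z1⁻¹ * z, ?_, by group⟩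
      have := H.mul_mem (H.inv_mem hg1) h
      rw [map_mul, map_inv, hz1]
      convert this using 1
      group
    · rintro ⟨y, hy, rfl⟩
      have := H.mul_mem hg1 hy
      rw [map_mul, hz1]
      convert this using 1
      group

theorem cset_bot {b : Bool} {D : Subgroup (Z × Z)} (hD : Good b D) :
    (E.Cset b ⊥ D).ncard = 1 := by
  rw [Set.ncard_eq_one]
  refine ⟨D.map E.prod.i, ?_⟩
  ext H
  simp only [Cset, Set.mem_ofPred_eq, Set.mem_singleton_iff]
  constructor
  · rintro ⟨-, h2, h3⟩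
    ext x
    constructor
    · intro hx
      have : E.prod.p x ∈ H.map E.prod.p := ⟨x, hx, rfl⟩
      rw [h2, mem_bot, E.prod.ker] at this
      obtain ⟨z, rfl⟩ := this
      exact ⟨z, by rw [← h3]; exact hx, rfl⟩
    · rintro ⟨z, hz, rfl⟩
      rw [← h3] at hz
      exact hz
  · rintro rfl
    refine ⟨⟨?_, ?_⟩, ?_, comap_map_eq_self_of_injective E.prod.i_inj D⟩
    · rintro _ ⟨z, hz, rfl⟩ h
      rw [hD.1 z hz (E.i_inj (by rw [map_one]; exact h)), map_one]
    · rintro hb _ ⟨z, hz, rfl⟩ h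
      rw [hD.2 hb z hz (E.i_inj (by rw [map_one]; exact h)), map_one]
    · rw [eq_bot_iff]
      rintro _ ⟨_, ⟨z, -, rfl⟩, rfl⟩
      rw [E.prod.p_i]
      exact one_mem _

end Ext

end Pool.Agent.Lib.MP_882835_al
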