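import Pool.Agent.Lib.MP_882835_al.Abs2
import Pool.Agent.Lib.MP_882835_al.Prog

/-!
Closed formulas for the number of graph subgroups with a given image.
-/

namespace Pool.Agent.Lib.MP_882835_al

open Subgroup

open scoped Classical

theorem prodR_eq (f : ℕ → ℕ) (n : ℕ) : prodR f n = ∏ k ∈ Finset.range n, f k := by
  induction n with
  | zero => rfl
  | succ n ih => rw [prodR, ih, Finset.prod_range_succ]

section Zpart

variable {Z : Type} [CommGroup Z]

theorem good_sup_iff (zz : ∀ z : Z, z * z = 1) {b : Bool} {S : Subgroup (Z × Z)} (hS : Good b S)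
    (t : Z × Z) :
    (t ∉ S ∧ Good b (S ⊔ zpowers t)) ↔
      ((¬ ∃ s ∈ S, t.1 * s.1 = 1) ∧ ¬ (b = true ∧ ∃ s ∈ S, t.2 * s.2 = 1)) := by
  have zz2 : ∀ z : Z × Z, z * z = 1 := fun z => Prod.ext (zz z.1) (zz z.2)
  constructor
  · rintro ⟨h1, h2⟩
    have h3 : ∀ s ∈ S, t * s ≠ 1 := by
      intro s hs h
      apply h1
      rw [mul_eq_one_iff_eq_inv.1 h]
      exact S.inv_mem hs
    have h4 : ∀ s ∈ S, t * s ∈ S ⊔ zpowers t := fun s hs =>
      mul_mem (mem_sup_right (mem_zpowers _)) (mem_sup_left hs)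
    exact ⟨fun ⟨s, hs, h⟩ => h3 s hs (h2.1 _ (h4 s hs) h),
      fun ⟨hb, s, hs, h⟩ => h3 s hs (h2.2 hb _ (h4 s hs) h)⟩
  · rintro ⟨h1, h2⟩
    refine ⟨fun h => h1 ⟨t, h, zz _⟩, fun x hx h => ?_, fun hb x hx h => ?_⟩
    · rcases (mem_sup_comm zz2 S t x).1 hx with h3 | h3
      · exact hS.1 x h3 h
      · refine (h1 ⟨_, h3, ?_⟩).elim
        rw [Prod.fst_mul, h, mul_one, zz]
    · rcases (mem_sup_comm zz2 S t x).1 hx with h3 | h3
      · exact hS.2 hb x h3 h
      · refine (h2 ⟨hb, _, h3, ?_⟩).elim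
        rw [Prod.snd_mul, h, mul_one, zz]

theorem ncard_shadow (f : Z × Z →* Z) {S : Subgroup (Z × Z)} (h : ∀ x ∈ S, f x = 1 → x = 1) :
    {z : Z | ∃ s ∈ S, z * f s = 1}.ncard = Nat.card S := by
  rw [← card_map_of_injOn S f h]
  have e1 : Nat.card (S.map f) = ((S.map f : Subgroup Z) : Set Z).ncard := rfl
  rw [e1]
  congr 1
  ext z
  simp only [Set.mem_ofPred_eq, SetLike.mem_coe, mem_map]
  constructor
  · rintro ⟨s, hs, h⟩
    exact ⟨s⁻¹, S.inv_mem hs, by rw [map_inv]; exact (mul_eq_one_iff_eq_inv.1 h).symm⟩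
  · rintro ⟨s, hs, rfl⟩
    exact ⟨s⁻¹, S.inv_mem hs, by rw [map_inv, mul_inv_cancel]⟩

theorem count_D_aux [Fintype Z] (zz : ∀ z : Z, z * z = 1) (hZ : Nat.card Z = 16) (b : Bool) (d : ℕ) :
    ∀ (S : Subgroup (Z × Z)) (w : ℕ), Good b S → Nat.card S = 2 ^ w →
      {D : Subgroup (Z × Z) | Good b D ∧ S ≤ D ∧ Nat.card D = 2 ^ (w + d)}.ncard
        * ∏ k ∈ Finset.range d, (2 ^ (w + d) - 2 ^ (w + k))
      = ∏ k ∈ Finset.range d, ((16 - 2 ^ (w + k)) * (bif b then 16 - 2 ^ (w + k) else 16)) := by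
  have zz2 : ∀ z : Z × Z, z * z = 1 := fun z => Prod.ext (zz z.1) (zz z.2)
  induction d with
  | zero =>
    intro S w hS hw
    simp only [Finset.range_zero, Finset.prod_empty, mul_one, add_zero]
    rw [Set.ncard_eq_one]
    refine ⟨S, ?_⟩
    ext D
    simp only [Set.mem_ofPred_eq, Set.mem_singleton_iff]
    constructor
    · rintro ⟨-, h2, h3⟩
      exact (eq_of_le_of_card_ge h2 (by rw [h3, hw])).symm
    · rintro rfl
      exact ⟨hS, le_rfl, hw⟩
  | succ d ih =>
    intro S w hS hw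
    rw [Finset.prod_range_succ', Finset.prod_range_succ', add_zero, mul_comm (∏ k ∈ _, _),
      ← mul_assoc,
      ← double_count {D : Subgroup (Z × Z) | Good b D ∧ S ≤ D ∧ Nat.card D = 2 ^ (w + (d + 1))}
        (fun D t => t ∈ D ∧ t ∉ S) (2 ^ (w + (d + 1)) - 2 ^ w), Finset.sum_mul]
    · have hterm : ∀ t : Z × Z,
          {a | a ∈ {D : Subgroup (Z × Z) | Good b D ∧ S ≤ D ∧ Nat.card D = 2 ^ (w + (d + 1))}
            ∧ t ∈ a ∧ t ∉ S}.ncard
            * ∏ k ∈ Finset.range d, (2 ^ (w + (d + 1)) - 2 ^ (w + (k + 1)))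
          = if t ∉ S ∧ Good b (S ⊔ zpowers t) then
              ∏ k ∈ Finset.range d, ((16 - 2 ^ (w + (k + 1)))
                * (bif b then 16 - 2 ^ (w + (k + 1)) else 16)) else 0 := by
        intro t
        split_ifs with h
        · have h1 := ih (S ⊔ zpowers t) (w + 1) h.2 (by rw [card_sup_comm zz2 h.1, hw]; ring)
          simp only [add_assoc, add_comm 1] at h1
          rw [← h1]
          congr 2
          ext D
          simp only [Set.mem_ofPred_eq, sup_le_iff, zpowers_le, h.1, not_false_eq_true, and_true]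
          tauto
        · rw [mul_eq_zero]
          left
          rw [Set.ncard_eq_zero, Set.eq_empty_iff_forall_notMem]
          rintro D ⟨⟨h1, h2, -⟩, h3, h4⟩
          exact h ⟨h4, h1.mono (sup_le h2 (by rwa [zpowers_le]))⟩
      simp only [hterm]
      rw [← Finset.sum_filter, Finset.sum_const, smul_eq_mul, mul_comm]
      congr 1
      have e : (Finset.univ.filter (fun t : Z × Z => t ∉ S ∧ Good b (S ⊔ zpowers t))).card
          = {t : Z × Z | (¬ ∃ s ∈ S, t.1 * MonoidHom.fst Z Z s = 1)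
              ∧ ¬ (b = true ∧ ∃ s ∈ S, t.2 * MonoidHom.snd Z Z s = 1)}.ncard := by
        rw [Set.ncard_eq_toFinset_card']
        congr 1
        ext t
        simp only [Finset.mem_filter, Finset.mem_univ, true_and, Set.mem_toFinset,
          Set.mem_ofPred_eq, good_sup_iff zz hS]
        rfl
      rw [e, ncard_prod_set (fun z => ¬ ∃ s ∈ S, z * MonoidHom.fst Z Z s = 1)
        (fun z => ¬ (b = true ∧ ∃ s ∈ S, z * MonoidHom.snd Z Z s = 1)), ncard_not, ncard_not,
        ncard_shadow _ hS.1, hZ, hw]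
      congr 1
      cases b with
      | false => simp
      | true =>
        simp only [true_and, cond_true]
        rw [ncard_shadow _ (hS.2 rfl), hw]
    · rintro D ⟨-, h2, h3⟩
      have e : {t | t ∈ D ∧ t ∉ S} = (D : Set (Z × Z)) \ (S : Set (Z × Z)) := rfl
      rw [e, Set.ncard_sdiff h2, ← h3, ← hw]
      rfl

theorem count_D [Fintype Z] (zz : ∀ z : Z, z * z = 1) (hZ : Nat.card Z = 16) (b : Bool)
    {S : Subgroup (Z × Z)} {w : ℕ} (hS : Good b S) (hw : Nat.card S = 2 ^ w) (j : ℕ) :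
    {D : Subgroup (Z × Z) | Good b D ∧ S ≤ D ∧ Nat.card D = 2 ^ j}.ncard = Nf b w j := by
  rw [Nf]
  split_ifs with h
  · rw [Set.ncard_eq_zero, Set.eq_empty_iff_forall_notMem]
    rintro D ⟨-, h2, h3⟩
    have := card_le_of_le h2
    rw [h3, hw] at this
    have := (Nat.pow_le_pow_iff_right (by norm_num)).1 this
    omega
  · obtain ⟨d, rfl⟩ := Nat.exists_eq_add_of_le (not_lt.1 h)
    rw [Nat.add_sub_cancel_left, prodR_eq, prodR_eq, ← count_D_aux zz hZ b d S w hS hw,
      Nat.mul_div_cancel]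
    refine Finset.prod_pos (fun k hk => ?_)
    have : 2 ^ (w + k) < 2 ^ (w + d) :=
      Nat.pow_lt_pow_right (by norm_num) (by have := Finset.mem_range.1 hk; omega)
    omega

theorem good_card [Fintype Z] (hZ : Nat.card Z = 16) {b : Bool} {D : Subgroup (Z × Z)}
    (hD : Good b D) : ∃ j < 5, Nat.card D = 2 ^ j := by
  have h1 := card_map_of_injOn D (MonoidHom.fst Z Z) hD.1
  have h2 := (D.map (MonoidHom.fst Z Z)).card_subgroup_dvd_card
  rw [h1, hZ, show 16 = 2 ^ 4 by norm_num, Nat.dvd_prime_pow Nat.prime_two] at h2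
  obtain ⟨j, hj, h⟩ := h2
  exact ⟨j, by omega, h⟩

end Zpart

/-- The numerator of `cf`. -/
def cnum (b : Bool) (j n a c : ℕ) : ℕ :=
  (bif b then prodR (fun k => 16 - 2 ^ (j + k)) a * 16 ^ (n - a) else 16 ^ n)
    * (prodR (fun k => 16 - 2 ^ (j + k)) c * 16 ^ (n - c))

namespace Ext

variable {G V Z : Type} [Group G] [CommGroup V] [CommGroup Z] (E : Ext G V Z)

/-- The invariant attached to a subgroup of `V × V`. -/
def Inv (b : Bool) (U : Subgroup (V × V)) (n a c : ℕ) : Prop :=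
  Nat.card U = 2 ^ n ∧ Nat.card (U ⊓ (MonoidHom.snd V V).ker : Subgroup (V × V)) = 2 ^ a ∧
  Nat.card (U ⊓ (MonoidHom.fst V V).ker : Subgroup (V × V)) = 2 ^ c ∧ a ≤ n ∧ c ≤ n ∧
  ∀ D j, Good b D → E.prod.Adm U D → Nat.card D = 2 ^ j →
    (E.Cset b U D).ncard * 2 ^ (j * n) = cnum b j n a c

theorem inv_bot (b : Bool) : E.Inv b ⊥ 0 0 0 := by
  refine ⟨by simp, by simp, by simp, le_rfl, le_rfl, fun D j hD _ _ => ?_⟩
  rw [E.cset_bot hD]
  cases b <;> simp [cnum, prodR]

theorem inv_step [Finite G] [Finite V] [Fintype Z] (hZ : Nat.card Z = 16) {b : Bool}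
    {U : Subgroup (V × V)} {n a c : ℕ} (h : E.Inv b U n a c) {u : V × V} (hu : u ∉ U) :
    E.Inv b (U ⊔ zpowers u) (n + 1) (if ∃ x ∈ U, (u * x).2 = 1 then a + 1 else a)
      (if ∃ x ∈ U, (u * x).1 = 1 then c + 1 else c) := by
  obtain ⟨h1, h2, h3, h4, h5, h6⟩ := h
  refine ⟨by rw [card_sup_comm E.prod.vv hu, h1]; ring, ?_, ?_, by split_ifs <;> omega,
    by split_ifs <;> omega, fun D j hD hadm hj => ?_⟩
  · rw [card_sup_inf_ker E.prod.vv hu, h2]
    simp only [MonoidHom.coe_snd]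
    split_ifs <;> ring
  · rw [card_sup_inf_ker E.prod.vv hu, h3]
    simp only [MonoidHom.coe_fst]
    split_ifs <;> ring
  · have h7 := E.step b hu hadm
    have h8 := h6 D j hD (hadm.mono le_sup_left) hj
    rw [mul_add, mul_one, pow_add, mul_comm (2 ^ (j * n)), ← mul_assoc, ← hj, h7, mul_right_comm, h8]
    simp only [mult, h2, h3, hj, hZ, MonoidHom.coe_fst, MonoidHom.coe_snd, cnum]
    have e1 : n + 1 - a = n - a + 1 := by omega
    have e2 : n + 1 - c = n - c + 1 := by omega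
    have e3 : n + 1 - (a + 1) = n - a := by omega
    have e4 : n + 1 - (c + 1) = n - c := by omega
    have e5 : 2 ^ a * 2 ^ j = 2 ^ (j + a) := by ring
    have e6 : 2 ^ c * 2 ^ j = 2 ^ (j + c) := by ring
    cases b <;> simp only [Bool.false_eq_true, if_false, if_true] <;> split_ifs <;>
      simp only [cond_true, cond_false, prodR, e1, e2, e3, e4, e5, e6, Nat.sub_zero] <;> ring

/-- The subgroups to be counted. -/
def Tot (_E : Ext G V Z) (b : Bool) (H : Subgroup (G × G)) : Prop :=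
  Good b H ∧ (b = true ∨ Nat.card H = 512)

theorem leaf [Finite G] [Fintype Z] (hZ : Nat.card Z = 16) {b : Bool}
    {U : Subgroup (V × V)} {n a c : ℕ} (h : E.Inv b U n a c) {S : Subgroup (Z × Z)} {w : ℕ}
    (hS : Good b S) (hw : Nat.card S = 2 ^ w) (hSU : ∀ D, E.prod.Adm U D ↔ S ≤ D) :
    {H | E.Tot b H ∧ H.map E.prod.p = U}.ncard = weight b n a c w := by
  have := Fintype.ofFinite (Subgroup (Z × Z))
  rw [ncard_fiber _ (fun H => H.comap E.prod.i)]
  have hterm : ∀ D : Subgroup (Z × Z),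
      {a | a ∈ {H | E.Tot b H ∧ H.map E.prod.p = U} ∧ a.comap E.prod.i = D}.ncard
      = ∑ j ∈ Finset.range 5, if Good b D ∧ S ≤ D ∧ Nat.card D = 2 ^ j then
          (bif b || (n + j == 9) then cf b j n a c else 0) else 0 := by
    intro D
    by_cases hD : Good b D ∧ S ≤ D
    · obtain ⟨j, hj, hc⟩ := good_card hZ hD.1
      rw [Finset.sum_eq_single j]
      · rw [if_pos ⟨hD.1, hD.2, hc⟩]
        have h1 := h.2.2.2.2.2 D j hD.1 ((hSU D).2 hD.2) hc
        have h2 : (E.Cset b U D).ncard = cf b j n a c := by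
          rw [cf]
          exact (Nat.div_eq_of_eq_mul_left (by positivity) h1.symm).symm
        have hcard : ∀ H ∈ E.Cset b U D, Nat.card H = 2 ^ (n + j) := by
          intro H hH
          rw [E.prod.card_eq, hH.2.1, hH.2.2, h.1, hc, pow_add]
        by_cases hb : (b || (n + j == 9)) = true
        · rw [hb, cond_true, ← h2]
          congr 1
          ext H
          simp only [Set.mem_ofPred_eq, Tot, Cset]
          constructor
          · rintro ⟨⟨⟨h3, -⟩, h4⟩, h5⟩
            exact ⟨h3, h4, h5⟩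
          · intro hH
            refine ⟨⟨⟨hH.1, ?_⟩, hH.2.1⟩, hH.2.2⟩
            simp only [Bool.or_eq_true, beq_iff_eq] at hb
            refine hb.imp id (fun h9 => ?_)
            rw [hcard H hH, h9]
            norm_num
        · rw [Bool.not_eq_true] at hb
          rw [hb, cond_false, Set.ncard_eq_zero, Set.eq_empty_iff_forall_notMem]
          rintro H ⟨⟨⟨h3, h4⟩, h5⟩, h6⟩
          simp only [Bool.or_eq_false_iff, beq_eq_false_iff_ne] at hb
          rcases h4 with h4 | h4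
          · rw [hb.1] at h4; exact Bool.false_ne_true h4
          · rw [hcard H ⟨h3, h5, h6⟩, show 512 = 2 ^ 9 by norm_num] at h4
            exact hb.2 (Nat.pow_right_injective (le_refl 2) h4)
      · intro j' _ hne
        rw [if_neg]
        rintro ⟨-, -, h3⟩
        rw [hc] at h3
        exact hne (Nat.pow_right_injective (le_refl 2) h3).symm
      · intro hj'
        exact (hj' (Finset.mem_range.2 hj)).elim
    · rw [Finset.sum_eq_zero (fun j _ => if_neg (fun h' => hD ⟨h'.1, h'.2.1⟩)),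
        Set.ncard_eq_zero, Set.eq_empty_iff_forall_notMem]
      rintro H ⟨⟨⟨h3, -⟩, h5⟩, h6⟩
      apply hD
      rw [← hSU, ← h5, ← h6]
      exact ⟨E.good_comap h3, E.prod.adm_of H⟩
  simp only [hterm]
  rw [Finset.sum_comm]
  have hj : ∀ j, ∑ D : Subgroup (Z × Z), (if Good b D ∧ S ≤ D ∧ Nat.card D = 2 ^ j then
      (bif b || (n + j == 9) then cf b j n a c else 0) else 0) = wt1 b n a c w j := by
    intro j
    rw [← Finset.sum_filter, Finset.sum_const, smul_eq_mul, wt1, ← count_D E.zz hZ b hS hw j,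
      Set.ncard_eq_toFinset_card']
    have e : (Finset.univ.filter (fun D : Subgroup (Z × Z) =>
        Good b D ∧ S ≤ D ∧ Nat.card D = 2 ^ j))
        = {D : Subgroup (Z × Z) | Good b D ∧ S ≤ D ∧ Nat.card D = 2 ^ j}.toFinset := by
      ext D; simp
    rw [e]
    cases (b || (n + j == 9)) <;> simp
  simp only [hj, Finset.sum_range_succ, Finset.range_zero, Finset.sum_empty, zero_add, weight]

end Ext

end Pool.Agent.Lib.MP_882835_al
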