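import Pool.Agent.Lib.MP_882835_al.Abs3

/-!
The concrete group of order 512 and the coding of pairs by natural numbers.
-/

namespace Pool.Agent.Lib.MP_882835_al

open Subgroup

open scoped Classical

/-- Bit vectors of length `n` under xor. -/
@[ext] structure X (n : ℕ) where
  val : ℕ
  lt : val < 2 ^ n

instance (n : ℕ) : CommGroup (X n) where
  mul a b := ⟨a.val ^^^ b.val, Nat.xor_lt_two_pow a.lt b.lt⟩
  one := ⟨0, Nat.two_pow_pos n⟩
  inv a := a
  mul_assoc a b c := X.ext (Nat.xor_assoc _ _ _)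
  one_mul a := X.ext (Nat.zero_xor _)
  mul_one a := X.ext (Nat.xor_zero _)
  inv_mul_cancel a := X.ext (Nat.xor_self _)
  mul_comm a b := X.ext (Nat.xor_comm _ _)

theorem X.mul_val {n : ℕ} (a b : X n) : (a * b).val = a.val ^^^ b.val := rfl
theorem X.one_val {n : ℕ} : (1 : X n).val = 0 := rfl
theorem X.mul_self {n : ℕ} (a : X n) : a * a = 1 := X.ext (Nat.xor_self _)

/-- Identification with `Fin`. -/
def X.equivFin (n : ℕ) : X n ≃ Fin (2 ^ n) where
  toFun a := ⟨a.val, a.lt⟩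
  invFun a := ⟨a.val, a.isLt⟩
  left_inv _ := rfl
  right_inv _ := rfl

instance (n : ℕ) : Fintype (X n) := Fintype.ofEquiv _ (X.equivFin n).symm

theorem X.card (n : ℕ) : Nat.card (X n) = 2 ^ n := by
  rw [Nat.card_congr (X.equivFin n)]
  simp

/-- Reduction of a natural number. -/
def mkX (n a : ℕ) : X n := ⟨a % 2 ^ n, Nat.mod_lt _ (Nat.two_pow_pos n)⟩

theorem mkX_xor (n a b : ℕ) : mkX n (a ^^^ b) = mkX n a * mkX n b :=
  X.ext Nat.xor_mod_two_pow

theorem mkX_val {n : ℕ} (a : X n) : mkX n a.val = a := X.ext (Nat.mod_eq_of_lt a.lt)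

/-- Decoding of a pair. -/
def dec (n u : ℕ) : X n × X n := (mkX n (u / 2 ^ n), mkX n u)

/-- Encoding of a pair. -/
def enc {n : ℕ} (x : X n × X n) : ℕ := 2 ^ n * x.1.val + x.2.val

theorem dec_xor (n a b : ℕ) : dec n (a ^^^ b) = dec n a * dec n b := by
  simp only [dec, Nat.xor_div_two_pow, mkX_xor, Prod.mk_mul_mk]

theorem dec_enc {n : ℕ} (x : X n × X n) : dec n (enc x) = x := by
  have h := Nat.two_pow_pos n
  refine Prod.ext (X.ext ?_) (X.ext ?_)
  · simp only [dec, enc, mkX]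
    rw [Nat.mul_add_div h, Nat.div_eq_of_lt x.2.lt, add_zero, Nat.mod_eq_of_lt x.1.lt]
  · simp only [dec, enc, mkX]
    rw [Nat.mul_add_mod, Nat.mod_eq_of_lt x.2.lt]

theorem enc_lt {n : ℕ} (x : X n × X n) : enc x < 2 ^ (n + n) := by
  have h1 := x.1.lt
  have h2 := x.2.lt
  rw [enc, pow_add]
  nlinarith

theorem enc_dec {n u : ℕ} (hu : u < 2 ^ (n + n)) : enc (dec n u) = u := by
  have h : u / 2 ^ n < 2 ^ n := by
    rw [Nat.div_lt_iff_lt_mul (Nat.two_pow_pos n), ← pow_add]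
    exact hu
  simp only [dec, enc, mkX]
  rw [Nat.mod_eq_of_lt h, Nat.div_add_mod]

theorem enc_mul {n : ℕ} (x y : X n × X n) : enc (x * y) = enc x ^^^ enc y := by
  rw [← enc_dec (Nat.xor_lt_two_pow (enc_lt x) (enc_lt y)), dec_xor, dec_enc, dec_enc]

theorem enc_one {n : ℕ} : enc (1 : X n × X n) = 0 := by
  simp [enc, X.one_val]

theorem dec_zero {n : ℕ} : dec n 0 = 1 := by
  rw [← enc_one (n := n), dec_enc]

theorem pair_mul_self {n : ℕ} (x : X n × X n) : x * x = 1 :=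
  Prod.ext (X.mul_self _) (X.mul_self _)

theorem dec_fst_eq_one {n u : ℕ} (hu : u < 2 ^ (n + n)) : (dec n u).1 = 1 ↔ u / 2 ^ n = 0 := by
  have h : u / 2 ^ n < 2 ^ n := by
    rw [Nat.div_lt_iff_lt_mul (Nat.two_pow_pos n), ← pow_add]
    exact hu
  rw [X.ext_iff]
  simp only [dec, mkX, X.one_val, Nat.mod_eq_of_lt h]

theorem dec_snd_eq_one {n u : ℕ} : (dec n u).2 = 1 ↔ u % 2 ^ n = 0 := by
  rw [X.ext_iff]
  simp only [dec, mkX, X.one_val]

theorem bT_lt (v w : ℕ) : bT v w < 2 ^ 4 := Nat.mod_lt _ (by norm_num)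

/-- The cocycle. -/
def beta (v w : X 5) : X 4 := ⟨bT v.val w.val, bT_lt _ _⟩

theorem tab_all : ∀ u < 32, ∀ v < 32,
    (∀ w < 32, bT u (v ^^^ w) = bT u v ^^^ bT u w ∧ bT (v ^^^ w) u = bT v u ^^^ bT w u) ∧
    qT u = bT u u ∧ cT u v = bT u v ^^^ bT v u ∧ (mqT (qT u)).testBit u = true ∧
    (mcT v (cT u v)).testBit u = true := by
  decide +kernel

theorem beta_mul_right (u v w : X 5) : beta u (v * w) = beta u v * beta u w :=
  X.ext ((tab_all _ u.lt _ v.lt).1 _ w.lt).1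

theorem beta_mul_left (u v w : X 5) : beta (v * w) u = beta v u * beta w u :=
  X.ext ((tab_all _ u.lt _ v.lt).1 _ w.lt).2

theorem beta_one_right (u : X 5) : beta u 1 = 1 := by
  have := beta_mul_right u 1 1
  rw [mul_one] at this
  exact mul_eq_left.1 this.symm

theorem beta_one_left (u : X 5) : beta 1 u = 1 := by
  have := beta_mul_left u 1 1
  rw [mul_one] at this
  exact mul_eq_left.1 this.symm

/-- The group of order 512. -/
@[ext] structure GG where
  v : X 5
  z : X 4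

instance : Mul GG := ⟨fun a b => ⟨a.v * b.v, a.z * b.z * beta a.v b.v⟩⟩
instance : One GG := ⟨⟨1, 1⟩⟩
instance : Inv GG := ⟨fun a => ⟨a.v, a.z * beta a.v a.v⟩⟩

theorem GG.mul_v (a b : GG) : (a * b).v = a.v * b.v := rfl
theorem GG.mul_z (a b : GG) : (a * b).z = a.z * b.z * beta a.v b.v := rfl
theorem GG.one_v : (1 : GG).v = 1 := rfl
theorem GG.one_z : (1 : GG).z = 1 := rfl

instance : Group GG := Group.ofLeftAxioms
  (fun a b c => GG.ext (mul_assoc _ _ _) (by
    simp only [GG.mul_z, GG.mul_v, beta_mul_left, beta_mul_right]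
    ac_rfl))
  (fun a => GG.ext (one_mul _) (by simp only [GG.mul_z, GG.one_z, GG.one_v, beta_one_left]; simp))
  (fun a => GG.ext (X.mul_self _) (by
    show a.z * beta a.v a.v * a.z * beta a.v a.v = 1
    rw [mul_assoc, X.mul_self]))

/-- Identification with a product. -/
def GG.equivProd : GG ≃ X 5 × X 4 where
  toFun a := (a.v, a.z)
  invFun a := ⟨a.1, a.2⟩
  left_inv _ := rfl
  right_inv _ := rfl

instance : Finite GG := Finite.of_equiv _ GG.equivProd.symm

theorem GG.card : Nat.card GG = 512 := by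
  rw [Nat.card_congr GG.equivProd, Nat.card_prod, X.card, X.card]
  norm_num

/-- The group as a central extension. -/
def EE : Ext GG (X 5) (X 4) where
  p := MonoidHom.mk' GG.v GG.mul_v
  i := MonoidHom.mk' (fun z => ⟨1, z⟩) (fun a b => GG.ext (mul_one _).symm (by
    simp only [GG.mul_z, beta_one_left, mul_one]))
  q := fun v => beta v v
  c := fun v w => beta v w * beta w v
  p_surj := fun v => ⟨⟨v, 1⟩, rfl⟩
  i_inj := fun a b h => congrArg GG.z h
  ker := fun g => ⟨fun h => ⟨g.z, GG.ext h.symm rfl⟩, by rintro ⟨z, rfl⟩; rfl⟩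
  central := fun z g => GG.ext (mul_comm _ _) (by
    simp only [GG.mul_z, MonoidHom.mk'_apply, beta_one_left, beta_one_right, mul_one, mul_comm])
  sq := fun g => GG.ext (X.mul_self _) (by
    simp only [GG.mul_z, MonoidHom.mk'_apply, X.mul_self, one_mul])
  comm := fun g h => GG.ext (by simp only [GG.mul_v, MonoidHom.mk'_apply, mul_one, mul_comm]) (by
    simp only [GG.mul_z, MonoidHom.mk'_apply, beta_one_right, mul_one]
    have := X.mul_self (beta h.v g.v)
    calc g.z * h.z * beta g.v h.v = g.z * h.z * beta g.v h.v * (beta h.v g.v * beta h.v g.v) := by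
          rw [this, mul_one]
      _ = _ := by ac_rfl)
  zz := X.mul_self

theorem GG.noncomm : ∃ a b : GG, a * b ≠ b * a := by
  refine ⟨⟨⟨1, by norm_num⟩, 1⟩, ⟨⟨2, by norm_num⟩, 1⟩, fun h => ?_⟩
  have := congrArg (fun g : GG => g.z.val) h
  revert this
  decide +kernel

theorem dec_Qc {u : ℕ} (hu : u < 1024) : Qc u < 256 ∧ dec 4 (Qc u) = EE.prod.q (dec 5 u) := by
  have h1 : u / 32 < 32 := by omega
  have h2 : u % 32 < 32 := by omega
  have e : Qc u = enc (EE.prod.q (dec 5 u)) := by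
    show 16 * qT (u / 32) + qT (u % 32) = 2 ^ 4 * bT (u / 32 % 32) (u / 32 % 32) + bT (u % 32) (u % 32)
    rw [Nat.mod_eq_of_lt h1, (tab_all _ h1 _ h1).2.1, (tab_all _ h2 _ h2).2.1]
    norm_num
  rw [e]
  exact ⟨enc_lt _, dec_enc _⟩

theorem dec_Cc {u x : ℕ} (hu : u < 1024) (hx : x < 1024) :
    Cc u x < 256 ∧ dec 4 (Cc u x) = EE.prod.c (dec 5 u) (dec 5 x) := by
  have h1 : u / 32 < 32 := by omega
  have h2 : u % 32 < 32 := by omega
  have h3 : x / 32 < 32 := by omega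
  have h4 : x % 32 < 32 := by omega
  have e : Cc u x = enc (EE.prod.c (dec 5 u) (dec 5 x)) := by
    show 16 * cT (u / 32) (x / 32) + cT (u % 32) (x % 32)
      = 2 ^ 4 * (bT (u / 32 % 32) (x / 32 % 32) ^^^ bT (x / 32 % 32) (u / 32 % 32))
        + (bT (u % 32) (x % 32) ^^^ bT (x % 32) (u % 32))
    rw [Nat.mod_eq_of_lt h1, Nat.mod_eq_of_lt h3, (tab_all _ h1 _ h3).2.2.1,
      (tab_all _ h2 _ h4).2.2.1]
    norm_num
  rw [e]
  exact ⟨enc_lt _, dec_enc _⟩

end Pool.Agent.Lib.MP_882835_al
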