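import Pool.Agent.Lib.MP_882835_al.Conc

/-!
The recurrence along the coordinate flag.
-/

namespace Pool.Agent.Lib.MP_882835_al

open Subgroup

open scoped Classical

theorem ncard_split {α ι : Type} [Finite α] (s0 : Set α) (I : Finset ι) (t : ι → Set α)
    (hd0 : ∀ i ∈ I, Disjoint s0 (t i)) (hd : ∀ i ∈ I, ∀ j ∈ I, i ≠ j → Disjoint (t i) (t j))
    (s : Set α) (h : ∀ a, a ∈ s ↔ a ∈ s0 ∨ ∃ i ∈ I, a ∈ t i) :
    s.ncard = s0.ncard + ∑ i ∈ I, (t i).ncard := by
  induction I using Finset.induction_on generalizing s s0 with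
  | empty =>
    have : s = s0 := by ext a; simpa using h a
    simp [this]
  | insert k I hk ih =>
    rw [Finset.sum_insert hk, ← add_assoc,
      ← Set.ncard_union_eq (hd0 k (Finset.mem_insert_self _ _))]
    apply ih
    · intro i hi
      rw [Set.disjoint_union_left]
      exact ⟨hd0 i (Finset.mem_insert_of_mem hi), hd k (Finset.mem_insert_self _ _) i
        (Finset.mem_insert_of_mem hi) (fun h => hk (h ▸ hi))⟩
    · intro i hi j hj
      exact hd i (Finset.mem_insert_of_mem hi) j (Finset.mem_insert_of_mem hj)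
    · intro a
      rw [h a]
      simp only [Finset.mem_insert, exists_eq_or_imp, Set.mem_union, or_assoc]

theorem and_eq_zero_iff (x P : ℕ) :
    x &&& P = 0 ↔ ∀ j, P.testBit j = true → x.testBit j = false := by
  constructor
  · intro h j hj
    have := congrArg (fun y => Nat.testBit y j) h
    simpa [hj] using this
  · intro h
    apply Nat.eq_of_testBit_eq
    intro j
    have := h j
    cases hP : P.testBit j <;> simp_all

theorem lt_two_pow_iff (x i : ℕ) : x < 2 ^ i ↔ ∀ j, i ≤ j → x.testBit j = false :=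
  ⟨fun h _ hj => Nat.testBit_lt_two_pow (h.trans_le (Nat.pow_le_pow_right (by norm_num) hj)),
    fun h => Nat.lt_pow_two_of_testBit x h⟩

theorem testBit_two_pow_add' {x i : ℕ} (h : x < 2 ^ i) (j : ℕ) :
    (2 ^ i + x).testBit j = (decide (i = j) || x.testBit j) := by
  have h1 := Nat.two_pow_add_eq_or_of_lt h 1
  rw [mul_one] at h1
  rw [h1, Nat.testBit_or, Nat.testBit_two_pow]

/-- `u` has leading bit `i`. -/
def Lev (i u : ℕ) : Prop := u < 2 ^ (i + 1) ∧ u.testBit i = true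

theorem lev_add {x i : ℕ} (h : x < 2 ^ i) : Lev i (2 ^ i + x) :=
  ⟨by rw [pow_succ]; omega, by rw [testBit_two_pow_add' h]; simp⟩

theorem Lev.not_lt {i u : ℕ} (h : Lev i u) : ¬ u < 2 ^ i := by
  intro h1
  have := (lt_two_pow_iff u i).1 h1 i le_rfl
  rw [h.2] at this
  exact Bool.noConfusion this

theorem lev_of {i u : ℕ} (h1 : u < 2 ^ (i + 1)) (h2 : ¬ u < 2 ^ i) : Lev i u := by
  have h3 : u = 2 ^ i + (u - 2 ^ i) := by omega
  rw [h3]
  apply lev_add
  rw [pow_succ] at h1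
  omega

theorem Lev.xor_lev {i u v : ℕ} (h : Lev i u) (h' : Lev i v) : u ^^^ v < 2 ^ i := by
  rw [lt_two_pow_iff]
  intro j hj
  rw [Nat.testBit_xor]
  rcases hj.eq_or_lt with rfl | hj
  · rw [h.2, h'.2]; rfl
  · rw [(lt_two_pow_iff _ _).1 h.1 j hj, (lt_two_pow_iff _ _).1 h'.1 j hj]; rfl

theorem Lev.xor_low {i u x : ℕ} (h : Lev i u) (hx : x < 2 ^ i) : Lev i (u ^^^ x) := by
  refine ⟨Nat.xor_lt_two_pow h.1 (hx.trans (Nat.pow_lt_pow_right (by norm_num) (by omega))), ?_⟩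
  rw [Nat.testBit_xor, h.2, (lt_two_pow_iff _ _).1 hx i le_rfl]
  rfl

theorem add_and_eq_zero {x i P : ℕ} (h : x < 2 ^ i) (hP : P < 2 ^ i) :
    (2 ^ i + x) &&& P = 0 ↔ x &&& P = 0 := by
  rw [and_eq_zero_iff, and_eq_zero_iff]
  refine forall_congr' (fun j => forall_congr' (fun hj => ?_))
  rw [testBit_two_pow_add' h]
  have : i ≠ j := by
    rintro rfl
    rw [(lt_two_pow_iff _ _).1 hP i le_rfl] at hj
    exact Bool.noConfusion hj
  simp [this]

theorem xor_and_eq_zero {x y P : ℕ} (hx : x &&& P = 0) (hy : y &&& P = 0) : (x ^^^ y) &&& P = 0 := by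
  rw [Nat.and_xor_distrib_right, hx, hy]
  rfl

/-- The flag of coordinate subgroups. -/
def NN (i : ℕ) : Subgroup (X 5 × X 5) where
  carrier := {x | enc x < 2 ^ i}
  one_mem' := by
    show enc _ < _
    rw [enc_one]; exact Nat.two_pow_pos i
  mul_mem' := by
    intro a b ha hb
    show enc _ < _
    rw [enc_mul]; exact Nat.xor_lt_two_pow ha hb
  inv_mem' := fun ha => ha

theorem mem_NN {i : ℕ} {x : X 5 × X 5} : x ∈ NN i ↔ enc x < 2 ^ i := Iff.rfl

theorem NN_mono (i : ℕ) : NN i ≤ NN (i + 1) := fun _ hx =>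
  lt_trans hx (Nat.pow_lt_pow_right (by norm_num) (by omega))

theorem Lev.lt {i u : ℕ} (h : Lev i u) (hi : i < 10) : u < 2 ^ (5 + 5) :=
  h.1.trans_le (Nat.pow_le_pow_right (by norm_num) (by omega))

/-- Echelon invariant. -/
def Ech (i P : ℕ) (U : Subgroup (X 5 × X 5)) : Prop :=
  U ≤ NN i ∧ P < 2 ^ i ∧ (∀ x ∈ U, enc x &&& P = 0 → x = 1) ∧
    ∀ y : ℕ, ∃ x ∈ U, (y ^^^ enc x) &&& P = 0

theorem ech_bot (i : ℕ) : Ech i 0 ⊥ :=
  ⟨bot_le, Nat.two_pow_pos i, fun _ hx _ => mem_bot.1 hx, fun _ => ⟨1, one_mem _, by simp⟩⟩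

theorem Ech.skip {i P : ℕ} {U : Subgroup (X 5 × X 5)} (h : Ech i P U) : Ech (i + 1) P U :=
  ⟨h.1.trans (NN_mono i), h.2.1.trans (Nat.pow_lt_pow_right (by norm_num) (by omega)), h.2.2⟩

theorem Ech.not_mem {i P u : ℕ} {U : Subgroup (X 5 × X 5)} (h : Ech i P U) (hi : i < 10)
    (hu : Lev i u) : dec 5 u ∉ U := by
  intro h1
  have := h.1 h1
  rw [mem_NN, enc_dec (hu.lt hi)] at this
  exact hu.not_lt this

theorem Ech.step {i P u : ℕ} {U : Subgroup (X 5 × X 5)} (h : Ech i P U) (hi : i < 10)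
    (hu : Lev i u) : Ech (i + 1) (P ||| 2 ^ i) (U ⊔ zpowers (dec 5 u)) := by
  have hlt : 2 ^ i < 2 ^ (i + 1) := Nat.pow_lt_pow_right (by norm_num) (by omega)
  have hor : ∀ y : ℕ, y &&& (P ||| 2 ^ i) = 0 ↔ y &&& P = 0 ∧ y.testBit i = false := by
    intro y
    rw [and_eq_zero_iff, and_eq_zero_iff]
    simp only [Nat.testBit_or, Nat.testBit_two_pow, Bool.or_eq_true, decide_eq_true_eq]
    constructor
    · intro h1
      exact ⟨fun j hj => h1 j (Or.inl hj), h1 i (Or.inr rfl)⟩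
    · rintro ⟨h1, h2⟩ j (hj | rfl)
      · exact h1 j hj
      · exact h2
  refine ⟨sup_le (h.1.trans (NN_mono i)) ?_, Nat.or_lt_two_pow (h.2.1.trans hlt) hlt, ?_, ?_⟩
  · rw [zpowers_le, mem_NN, enc_dec (hu.lt hi)]
    exact hu.1
  · intro x hx h1
    rw [hor] at h1
    rcases (mem_sup_comm pair_mul_self U _ x).1 hx with h2 | h2
    · exact h.2.2.1 x h2 h1.1
    · exfalso
      have h3 := h.1 h2
      rw [mem_NN, enc_mul, enc_dec (hu.lt hi)] at h3
      have h4 := (lt_two_pow_iff _ _).1 h3 i le_rfl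
      rw [Nat.testBit_xor, hu.2, h1.2] at h4
      exact Bool.noConfusion h4
  · intro y
    cases hy : y.testBit i with
    | false =>
      obtain ⟨x, hx, h1⟩ := h.2.2.2 y
      refine ⟨x, mem_sup_left hx, (hor _).2 ⟨h1, ?_⟩⟩
      rw [Nat.testBit_xor, hy, (lt_two_pow_iff _ _).1 (h.1 hx) i le_rfl]
      rfl
    | true =>
      obtain ⟨x, hx, h1⟩ := h.2.2.2 (y ^^^ u)
      refine ⟨dec 5 u * x, mul_mem (mem_sup_right (mem_zpowers _)) (mem_sup_left hx), ?_⟩
      rw [enc_mul, enc_dec (hu.lt hi), ← Nat.xor_assoc]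
      refine (hor _).2 ⟨h1, ?_⟩
      rw [Nat.testBit_xor, Nat.testBit_xor, hy, hu.2, (lt_two_pow_iff _ _).1 (h.1 hx) i le_rfl]
      rfl

theorem Ech.split {i P : ℕ} {U : Subgroup (X 5 × X 5)} (h : Ech i P U) (hi : i < 10)
    (Y : Subgroup (X 5 × X 5)) :
    Y ⊓ NN i = U ↔ Y ⊓ NN (i + 1) = U ∨ ∃ x ∈ (Finset.range (2 ^ i)).filter (fun x => x &&& P = 0),
      Y ⊓ NN (i + 1) = U ⊔ zpowers (dec 5 (2 ^ i + x)) := by
  have hinf : Y ⊓ NN i = (Y ⊓ NN (i + 1)) ⊓ NN i := by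
    rw [inf_assoc, inf_eq_right.2 (NN_mono i)]
  constructor
  · intro h1
    by_cases h2 : Y ⊓ NN (i + 1) ≤ NN i
    · left
      rw [← h1, hinf, inf_eq_left.2 h2]
    · right
      obtain ⟨y, hy1, hy2⟩ := SetLike.not_le_iff_exists.1 h2
      have hy3 : Lev i (enc y) := lev_of hy1.2 hy2
      obtain ⟨x, hx, h3⟩ := h.2.2.2 (enc y)
      have hu : Lev i (enc y ^^^ enc x) := hy3.xor_low (h.1 hx)
      have h4 : enc y ^^^ enc x = 2 ^ i + ((enc y ^^^ enc x) - 2 ^ i) := by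
        have := hu.not_lt
        omega
      have h5 : (enc y ^^^ enc x) - 2 ^ i < 2 ^ i := by
        have := hu.1
        rw [pow_succ] at this
        omega
      refine ⟨_, Finset.mem_filter.2 ⟨Finset.mem_range.2 h5, ?_⟩, ?_⟩
      · rw [← add_and_eq_zero h5 h.2.1, ← h4]
        exact h3
      · rw [← h4, ← enc_mul, dec_enc]
        have hUY : U ≤ Y ⊓ NN (i + 1) := by
          rw [← h1, hinf]; exact inf_le_left
        have hyx : y * x ∈ Y ⊓ NN (i + 1) := mul_mem hy1 (hUY hx)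
        refine le_antisymm (fun z hz => ?_) (sup_le hUY (by rwa [zpowers_le]))
        rw [mem_sup_comm pair_mul_self, ← h1]
        by_cases h6 : enc z < 2 ^ i
        · exact Or.inl ⟨hz.1, h6⟩
        · refine Or.inr ⟨(mul_mem hyx hz).1, ?_⟩
          show enc _ < _
          rw [enc_mul, enc_mul]
          exact hu.xor_lev (lev_of hz.2 h6)
  · rintro (h1 | ⟨x, hx, h1⟩)
    · rw [hinf, h1, inf_eq_left.2 h.1]
    · rw [hinf, h1]
      have hu : Lev i (2 ^ i + x) := lev_add (Finset.mem_range.1 (Finset.mem_filter.1 hx).1)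
      refine le_antisymm (fun z hz => ?_) (le_inf le_sup_left h.1)
      rcases (mem_sup_comm pair_mul_self U _ z).1 hz.1 with h2 | h2
      · exact h2
      · exfalso
        have h3 := h.1 h2
        rw [mem_NN, enc_mul, enc_dec (hu.lt hi)] at h3
        exact (hu.xor_low hz.2).not_lt h3

/-- The number of counted subgroups whose image meets `NN i` in `U`. -/
noncomputable def TT (b : Bool) (i : ℕ) (U : Subgroup (X 5 × X 5)) : ℕ :=
  {H | EE.Tot b H ∧ H.map EE.prod.p ⊓ NN i = U}.ncard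

theorem TT_rec {b : Bool} {i P : ℕ} {U : Subgroup (X 5 × X 5)} (h : Ech i P U) (hi : i < 10) :
    TT b i U = TT b (i + 1) U + ∑ x ∈ (Finset.range (2 ^ i)).filter (fun x => x &&& P = 0),
      TT b (i + 1) (U ⊔ zpowers (dec 5 (2 ^ i + x))) := by
  unfold TT
  apply ncard_split
  · intro x hx
    have hu : Lev i (2 ^ i + x) := lev_add (Finset.mem_range.1 (Finset.mem_filter.1 hx).1)
    rw [Set.disjoint_left]
    rintro H ⟨-, h1⟩ ⟨-, h2⟩
    apply h.not_mem hi hu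
    rw [← h1, h2]
    exact mem_sup_right (mem_zpowers _)
  · intro x hx y hy hxy
    obtain ⟨hx1, hx2⟩ := Finset.mem_filter.1 hx
    obtain ⟨hy1, hy2⟩ := Finset.mem_filter.1 hy
    rw [Finset.mem_range] at hx1 hy1
    have hu : Lev i (2 ^ i + x) := lev_add hx1
    have hv : Lev i (2 ^ i + y) := lev_add hy1
    rw [Set.disjoint_left]
    rintro H ⟨-, h1⟩ ⟨-, h2⟩
    have h3 : dec 5 (2 ^ i + y) ∈ U ⊔ zpowers (dec 5 (2 ^ i + x)) := by
      rw [← h1, h2]
      exact mem_sup_right (mem_zpowers _)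
    rcases (mem_sup_comm pair_mul_self U _ _).1 h3 with h4 | h4
    · exact h.not_mem hi hv h4
    · have h5 := h.2.2.1 _ h4 (by
        rw [enc_mul, enc_dec (hu.lt hi), enc_dec (hv.lt hi)]
        exact xor_and_eq_zero ((add_and_eq_zero hx1 h.2.1).2 hx2) ((add_and_eq_zero hy1 h.2.1).2 hy2))
      have h6 := congrArg enc h5
      rw [enc_mul, enc_dec (hu.lt hi), enc_dec (hv.lt hi), enc_one, Nat.xor_eq_zero_iff] at h6
      omega
  · intro H
    simp only [Set.mem_ofPred_eq, h.split hi]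
    constructor
    · rintro ⟨h1, h2 | ⟨x, hx, h2⟩⟩
      · exact Or.inl ⟨h1, h2⟩
      · exact Or.inr ⟨x, hx, h1, h2⟩
    · rintro (⟨h1, h2⟩ | ⟨x, hx, h1, h2⟩)
      · exact ⟨h1, Or.inl h2⟩
      · exact ⟨h1, Or.inr ⟨x, hx, h2⟩⟩

theorem TT_zero_of {b : Bool} {i : ℕ} {U : Subgroup (X 5 × X 5)}
    (h : ∀ D, Good b D → ¬ EE.prod.Adm U D) : TT b i U = 0 := by
  rw [TT, Set.ncard_eq_zero, Set.eq_empty_iff_forall_notMem]
  rintro H ⟨h1, h2⟩
  exact h _ (EE.good_comap h1.1) ((EE.prod.adm_of H).mono (by rw [← h2]; exact inf_le_left))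

theorem fst_bij {H : Subgroup (GG × GG)} (h : EE.Tot false H) :
    Function.Bijective (Prod.fst ∘ H.subtype) := by
  have hinj : Function.Injective (Prod.fst ∘ H.subtype) := by
    intro x y hxy
    have h1 := h.1.1 (x.1 * y.1⁻¹) (H.mul_mem x.2 (H.inv_mem y.2)) (by
      have : x.1.1 = y.1.1 := hxy
      simp [this])
    exact Subtype.ext (mul_inv_eq_one.1 h1)
  refine hinj.bijective_of_nat_card_le ?_
  rw [GG.card, h.2.resolve_left Bool.false_ne_true]

theorem TT_prune {i P : ℕ} {U : Subgroup (X 5 × X 5)} (h : Ech i P U) (hi : i < 10) (h5 : 5 ≤ i) :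
    TT false (i + 1) U = 0 := by
  rw [TT, Set.ncard_eq_zero, Set.eq_empty_iff_forall_notMem]
  rintro H ⟨h1, h2⟩
  have hlt : 2 ^ (i - 5) < 2 ^ 5 := Nat.pow_lt_pow_right (by norm_num) (by omega)
  obtain ⟨x, hx⟩ := (fst_bij h1).2 ⟨⟨2 ^ (i - 5), hlt⟩, 1⟩
  have h3 : enc (EE.prod.p x.1) = 2 ^ i + x.1.2.v.val := by
    have h4 : x.1.1.v.val = 2 ^ (i - 5) := congrArg (fun g : GG => g.v.val) hx
    show 2 ^ 5 * x.1.1.v.val + x.1.2.v.val = _
    rw [h4, ← pow_add]
    congr 2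
    omega
  have h6 : x.1.2.v.val < 2 ^ i :=
    x.1.2.v.lt.trans_le (Nat.pow_le_pow_right (by norm_num) h5)
  have h7 := lev_add h6
  rw [← h3] at h7
  have h8 : EE.prod.p x.1 ∈ U := by
    rw [← h2]
    exact ⟨⟨x.1, x.2, rfl⟩, h7.1⟩
  exact h7.not_lt (h.1 h8)

theorem TT_top (b : Bool) (U : Subgroup (X 5 × X 5)) :
    TT b 10 U = {H | EE.Tot b H ∧ H.map EE.prod.p = U}.ncard := by
  have : NN 10 = ⊤ := eq_top_iff.2 (fun x _ => enc_lt x)
  simp only [TT, this, inf_top_eq]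

theorem TT_bot (b : Bool) : TT b 0 ⊥ = {H | EE.Tot b H}.ncard := by
  have : NN 0 = ⊥ := by
    rw [eq_bot_iff]
    intro x hx
    have h1 : enc x = 0 := by
      have := mem_NN.1 hx
      omega
    rw [mem_bot, ← dec_enc x, h1, dec_zero]
  simp only [TT, this, inf_bot_eq, and_true]

end Pool.Agent.Lib.MP_882835_al
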