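import Pool.Agent.Lib.MP_882835_al.Prog

/-!
Kernel evaluation of the enumeration program.
-/

namespace Pool.Agent.Lib.MP_882835_al

set_option maxRecDepth 100000

theorem run_false : go false 10 0 [] [0] 0 0 0 0 [0] 0 = 2164260864 := by
  decide +kernel

theorem level_10 : go true 0 10 [] [0] 0 0 0 0 [0] 0 = 65536 := by
  decide +kernel

theorem level_0 : level true (go true 9) 0 [] [0] 0 0 0 0 [0] 0 = 0 := by
  decide +kernel

theorem level_1 : level true (go true 8) 1 [] [0] 0 0 0 0 [0] 0 = 137953280 := by
  decide +kernel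

theorem level_2 : level true (go true 7) 2 [] [0] 0 0 0 0 [0] 0 = 137953280 := by
  decide +kernel

theorem level_3 : level true (go true 6) 3 [] [0] 0 0 0 0 [0] 0 = 0 := by
  decide +kernel

theorem level_4 : level true (go true 5) 4 [] [0] 0 0 0 0 [0] 0 = 0 := by
  decide +kernel

theorem level_5 : level true (go true 4) 5 [] [0] 0 0 0 0 [0] 0 = 404488192 := by
  decide +kernel

theorem level_6 : level true (go true 3) 6 [] [0] 0 0 0 0 [0] 0 = 521273344 := by
  decide +kernel

theorem level_9 : level true (go true 0) 9 [] [0] 0 0 0 0 [0] 0 = 30408704 := by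
  decide +kernel

end Pool.Agent.Lib.MP_882835_al
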