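import Pool.Agent.Lib.MP_882835_al.Prog

/-!
Kernel evaluation of the enumeration program.
-/

namespace Pool.Agent.Lib.MP_882835_al

set_option maxRecDepth 100000

theorem level_8 : level true (go true 1) 8 [] [0] 0 0 0 0 [0] 0 = 290455552 := by
  decide +kernel

end Pool.Agent.Lib.MP_882835_al
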