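import Pool.Agent.Lib.MP_882835_al.Spec2
import Pool.Agent.Lib.MP_882835_al.Run1
import Pool.Agent.Lib.MP_882835_al.Run2
import Pool.Agent.Lib.MP_882835_al.Run3

/-!
Endomorphisms and partial isomorphisms as graph subgroups; the final count.
-/

namespace Pool.Agent.Lib.MP_882835_al

open Subgroup

theorem step_val (k i k' i' : ℕ) {a b : ℕ} (hk : k' = k + 1) (hi : i' = i + 1)
    (h1 : go true k i' [] [0] 0 0 0 0 [0] 0 = a)
    (h2 : level true (go true k) i [] [0] 0 0 0 0 [0] 0 = b) :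
    go true k' i [] [0] 0 0 0 0 [0] 0 = a + b := by
  subst hk hi
  rw [go_succ, ite'_eq, if_pos rfl, h1, h2]

theorem run_true : go true 10 0 [] [0] 0 0 0 0 [0] 0 = 2164260864 := by
  have h9 := step_val 0 9 1 10 (by norm_num) (by norm_num) level_10 level_9
  have h8 := step_val 1 8 2 9 (by norm_num) (by norm_num) h9 level_8
  have h7 := step_val 2 7 3 8 (by norm_num) (by norm_num) h8 level_7
  have h6 := step_val 3 6 4 7 (by norm_num) (by norm_num) h7 level_6
  have h5 := step_val 4 5 5 6 (by norm_num) (by norm_num) h6 level_5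
  have h4 := step_val 5 4 6 5 (by norm_num) (by norm_num) h5 level_4
  have h3 := step_val 6 3 7 4 (by norm_num) (by norm_num) h4 level_3
  have h2 := step_val 7 2 8 3 (by norm_num) (by norm_num) h3 level_2
  have h1 := step_val 8 1 9 2 (by norm_num) (by norm_num) h2 level_1
  have h0 := step_val 9 0 10 1 (by norm_num) (by norm_num) h1 level_0
  exact h0.trans (by norm_num)

theorem card_end : Nat.card (GG →* GG) = {H | EE.Tot false H}.ncard := by
  rw [← Nat.card_coe_set_eq]
  refine Nat.card_eq_of_bijective (fun f => ⟨f.graph, ⟨fun x hx h => ?_, by simp⟩, Or.inr ?_⟩)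
    ⟨fun f g h => ?_, fun H => ?_⟩
  · rw [MonoidHom.mem_graph, h, map_one] at hx
    exact Prod.ext h hx.symm
  · rw [← GG.card]
    refine Nat.card_eq_of_bijective (fun x => x.1.1) ⟨fun x y h => ?_, fun g => ⟨⟨(g, f g), rfl⟩, rfl⟩⟩
    have hx : f x.1.1 = x.1.2 := x.2
    have hy : f y.1.1 = y.1.2 := y.2
    have h' : x.1.1 = y.1.1 := h
    exact Subtype.ext (Prod.ext h' (by rw [← hx, ← hy, h']))
  · refine MonoidHom.ext (fun x => ?_)
    have h1 : f.graph = g.graph := congrArg Subtype.val h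
    have h2 : (x, f x) ∈ g.graph := by rw [← h1]; rfl
    exact (MonoidHom.mem_graph.1 h2).symm
  · obtain ⟨f, hf⟩ := Subgroup.exists_eq_graph (fst_bij H.2)
    exact ⟨f, Subtype.ext hf.symm⟩

/-- The graph of a partial isomorphism. -/
def pgraph {A : Type} [Group A] (x : Σ H : Subgroup A, Σ K : Subgroup A, H ≃* K) :
    Subgroup (A × A) :=
  (x.1.subtype.prod (x.2.1.subtype.comp x.2.2.toMonoidHom)).range

theorem mem_pgraph {A : Type} [Group A] (H K : Subgroup A) (f : H ≃* K) (y : A × A) :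
    y ∈ pgraph ⟨H, K, f⟩ ↔ ∃ h : H, ((h : A), (f h : A)) = y := Iff.rfl

theorem card_piso {A : Type} [Group A] :
    Nat.card (Σ H : Subgroup A, Σ K : Subgroup A, H ≃* K)
      = {H : Subgroup (A × A) | Good true H}.ncard := by
  rw [← Nat.card_coe_set_eq]
  refine Nat.card_eq_of_bijective (fun x => ⟨pgraph x, ?_, ?_⟩) ⟨?_, ?_⟩
  · obtain ⟨H, K, f⟩ := x
    rintro _ ⟨h, rfl⟩ h1
    have : h = 1 := Subtype.ext h1
    rw [this, map_one]
  · obtain ⟨H, K, f⟩ := x
    rintro - _ ⟨h, rfl⟩ h1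
    have h2 : f h = 1 := Subtype.ext h1
    have : h = 1 := by simpa using h2
    rw [this, map_one]
  · rintro ⟨H, K, f⟩ ⟨H', K', f'⟩ h
    have h1 : pgraph ⟨H, K, f⟩ = pgraph ⟨H', K', f'⟩ := congrArg Subtype.val h
    have e1 : ∀ (H K : Subgroup A) (f : H ≃* K),
        (pgraph ⟨H, K, f⟩).map (MonoidHom.fst A A) = H := by
      intro H K f
      ext a
      constructor
      · rintro ⟨_, ⟨h, rfl⟩, rfl⟩
        exact h.2
      · intro ha
        exact ⟨_, ⟨⟨a, ha⟩, rfl⟩, rfl⟩
    have e2 : ∀ (H K : Subgroup A) (f : H ≃* K),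
        (pgraph ⟨H, K, f⟩).map (MonoidHom.snd A A) = K := by
      intro H K f
      ext a
      constructor
      · rintro ⟨_, ⟨h, rfl⟩, rfl⟩
        exact (f h).2
      · intro ha
        refine ⟨_, ⟨f.symm ⟨a, ha⟩, rfl⟩, ?_⟩
        simp
    obtain rfl : H = H' := by rw [← e1 H K f, h1, e1]
    obtain rfl : K = K' := by rw [← e2 H K f, h1, e2]
    obtain rfl : f = f' := by
      ext a
      have h2 : ((a : A), (f a : A)) ∈ pgraph ⟨H, K, f'⟩ := by
        rw [← h1]; exact ⟨a, rfl⟩
      obtain ⟨a', h3⟩ := (mem_pgraph _ _ _ _).1 h2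
      have h4 : a' = a := Subtype.ext (congrArg Prod.fst h3)
      rw [h4] at h3
      exact (congrArg Prod.snd h3).symm
    rfl
  · rintro ⟨Γ, hΓ⟩
    have b1 : Function.Bijective ((MonoidHom.fst A A).subgroupMap Γ) := by
      refine ⟨(injective_iff_map_eq_one _).2 (fun x hx => Subtype.ext ?_),
        MonoidHom.subgroupMap_surjective _ _⟩
      exact hΓ.1 x.1 x.2 (congrArg Subtype.val hx)
    have b2 : Function.Bijective ((MonoidHom.snd A A).subgroupMap Γ) := by
      refine ⟨(injective_iff_map_eq_one _).2 (fun x hx => Subtype.ext ?_),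
        MonoidHom.subgroupMap_surjective _ _⟩
      exact hΓ.2 rfl x.1 x.2 (congrArg Subtype.val hx)
    refine ⟨⟨_, _, (MulEquiv.ofBijective _ b1).symm.trans (MulEquiv.ofBijective _ b2)⟩,
      Subtype.ext ?_⟩
    ext y
    rw [mem_pgraph]
    constructor
    · rintro ⟨h, rfl⟩
      obtain ⟨x, rfl⟩ := (MulEquiv.ofBijective _ b1).surjective h
      rw [MulEquiv.trans_apply, MulEquiv.symm_apply_apply]
      exact x.2
    · intro hy
      refine ⟨MulEquiv.ofBijective _ b1 ⟨y, hy⟩, ?_⟩
      rw [MulEquiv.trans_apply, MulEquiv.symm_apply_apply]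
      rfl

theorem end_value : Nat.card (GG →* GG) = 2164260864 := by
  rw [card_end, ← go_total, run_false]

theorem piso_value :
    Nat.card (Σ H : Subgroup GG, Σ K : Subgroup GG, H ≃* K) = 2164260864 := by
  rw [card_piso, ← run_true, go_total]
  congr 1
  ext H
  simp [Ext.Tot]

end Pool.Agent.Lib.MP_882835_al
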