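import Pool.Agent.Lib.MP_882835_al.Ech

/-!
Specifications of the small routines of the enumeration program.
-/

namespace Pool.Agent.Lib.MP_882835_al

open Subgroup

open scoped Classical

theorem force_eq (x : ℕ) (f : ℕ → ℕ) : force x f = f x := by cases x <;> rfl

theorem ite'_eq (c : Bool) (x y : ℕ) : ite' c x y = if c = true then x else y := by
  cases c <;> rfl

theorem bit_eq (m k : ℕ) : bit m k = m.testBit k := by
  rw [Nat.testBit_eq_decide_div_mod_eq, Bool.eq_iff_iff, decide_eq_true_eq, bit, Nat.beq_eq,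
    ← Nat.shiftRight_eq_div_pow]
  rfl

theorem grow_spec (t : ℕ) (l : List ℕ) : ∀ (acc : List ℕ) (k : List ℕ → ℕ),
    ∃ l', grow t l acc k = k l' ∧ ∀ x, x ∈ l' ↔ x ∈ acc ∨ ∃ e ∈ l, x = e ^^^ t := by
  induction l with
  | nil => exact fun acc k => ⟨acc, rfl, by simp⟩
  | cons e l ih =>
    intro acc k
    obtain ⟨l', h1, h2⟩ := ih ((e ^^^ t) :: acc) k
    refine ⟨l', ?_, ?_⟩
    · rw [← h1]
      exact force_eq (Nat.xor e t) (fun d => grow t l (d :: acc) k)
    · intro x
      rw [h2]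
      simp only [List.mem_cons, exists_eq_or_imp]
      tauto

theorem scan_cons (b : Bool) (t e : ℕ) (l : List ℕ) :
    scan b t (e :: l) = if e ^^^ t ≤ 15 then (if e ^^^ t = 0 then 1 else 2)
      else if b = true then (if (e ^^^ t) % 16 = 0 then 2 else scan b t l) else scan b t l := by
  have : scan b t (e :: l) = force (Nat.xor e t) (fun d =>
      ite' (Nat.ble d 15) (ite' (Nat.beq d 0) 1 2)
        (ite' b (ite' (Nat.beq (Nat.mod d 16) 0) 2 (scan b t l)) (scan b t l))) := rfl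
  rw [this, force_eq]
  simp only [ite'_eq, Nat.ble_eq, Nat.beq_eq]
  rfl

theorem scan_spec (b : Bool) (t : ℕ) (l : List ℕ) :
    (scan b t l = 0 ∧ ∀ e ∈ l, ¬ (e ^^^ t) / 16 = 0 ∧ ¬ (b = true ∧ (e ^^^ t) % 16 = 0)) ∨
    (scan b t l = 1 ∧ t ∈ l) ∨
    (scan b t l = 2 ∧ ∃ e ∈ l, e ^^^ t ≠ 0 ∧
      ((e ^^^ t) / 16 = 0 ∨ (b = true ∧ (e ^^^ t) % 16 = 0))) := by
  induction l with
  | nil => exact Or.inl ⟨rfl, by simp⟩
  | cons e l ih =>
    have hrec : ¬ e ^^^ t ≤ 15 → ¬ (b = true ∧ (e ^^^ t) % 16 = 0) →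
        (scan b t l = 0 ∧ ∀ e' ∈ e :: l, ¬ (e' ^^^ t) / 16 = 0 ∧ ¬ (b = true ∧ (e' ^^^ t) % 16 = 0)) ∨
        (scan b t l = 1 ∧ t ∈ e :: l) ∨
        (scan b t l = 2 ∧ ∃ e' ∈ e :: l, e' ^^^ t ≠ 0 ∧
          ((e' ^^^ t) / 16 = 0 ∨ (b = true ∧ (e' ^^^ t) % 16 = 0))) := by
      intro h1 h2
      rcases ih with h | h | ⟨h, e', h3, h4⟩
      · refine Or.inl ⟨h.1, ?_⟩
        intro e' he'
        rcases List.mem_cons.1 he' with rfl | he'
        · exact ⟨by omega, h2⟩
        · exact h.2 e' he'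
      · exact Or.inr (Or.inl ⟨h.1, List.mem_cons_of_mem _ h.2⟩)
      · exact Or.inr (Or.inr ⟨h, e', List.mem_cons_of_mem _ h3, h4⟩)
    rw [scan_cons]
    split_ifs with h1 h2 h3 h4
    · refine Or.inr (Or.inl ⟨rfl, ?_⟩)
      rw [Nat.xor_eq_zero_iff] at h2
      rw [h2]; exact List.mem_cons_self
    · exact Or.inr (Or.inr ⟨rfl, e, List.mem_cons_self, h2, Or.inl (by omega)⟩)
    · exact Or.inr (Or.inr ⟨rfl, e, List.mem_cons_self, by omega, Or.inr ⟨h3, h4⟩⟩)
    · exact hrec h1 (fun h => h4 h.2)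
    · exact hrec h1 (fun h => h3 h.1)

theorem hit_spec (f : ℕ → ℕ) (u : ℕ) (l : List ℕ) :
    hit f u l = true ↔ ∃ e ∈ l, f (e ^^^ u) = 0 := by
  induction l with
  | nil => simp [hit]
  | cons e l ih =>
    have : hit f u (e :: l) = Bool.rec (motive := fun _ => Bool) (hit f u l) true
      (Nat.beq (f (e ^^^ u)) 0) := rfl
    rw [this]
    simp only [List.mem_cons, exists_eq_or_imp, ← ih]
    cases h : Nat.beq (f (e ^^^ u)) 0 with
    | false =>
      have := Nat.ne_of_beq_eq_false h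
      simp [this]
    | true =>
      have := Nat.eq_of_beq_eq_true h
      simp [this]

theorem look_spec (z : ℕ) (l : List ℕ) (r : ℕ) (h : look z l = r + 1) :
    ∃ e ∈ l, e / 16 = z ∧ e % 16 = r := by
  induction l with
  | nil => exact absurd h (by simp [look])
  | cons e l ih =>
    have : look z (e :: l) = ite' (Nat.beq (e / 16) z) (e % 16 + 1) (look z l) := rfl
    rw [this, ite'_eq] at h
    split_ifs at h with h1
    · exact ⟨e, List.mem_cons_self, Nat.eq_of_beq_eq_true h1, by omega⟩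
    · obtain ⟨e', h2, h3⟩ := ih h
      exact ⟨e', List.mem_cons_of_mem _ h2, h3⟩

theorem filt_spec (S : List ℕ) (z : ℕ) (T : ℕ → ℕ) (M j : ℕ) :
    ((filt S z T M).testBit j = true → M.testBit j = true) ∧
    (M.testBit j = true → (filt S z T M).testBit j = false →
      ∃ e ∈ S, e / 16 = z ∧ (T (e % 16)).testBit j = false) := by
  rw [filt, force_eq]
  cases h : look z S with
  | zero =>
    refine ⟨id, fun h1 h2 => ?_⟩
    have h3 : M.testBit j = false := h2
    rw [h1] at h3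
    exact Bool.noConfusion h3
  | succ r =>
    obtain ⟨e, h1, h2, h3⟩ := look_spec z S r h
    show ((M &&& T r).testBit j = true → _) ∧ (_ → (M &&& T r).testBit j = false → _)
    rw [Nat.testBit_and]
    refine ⟨fun h => (Bool.and_eq_true_iff.1 h).1, fun h4 h5 => ⟨e, h1, h2, ?_⟩⟩
    rw [h4, Bool.true_and] at h5
    rw [h3, h5]

theorem filtAll_spec (S : List ℕ) (v : ℕ) (L : List ℕ) (M j : ℕ) :
    ((filtAll S v L M).testBit j = true → M.testBit j = true) ∧
    (M.testBit j = true → (filtAll S v L M).testBit j = false →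
      (∃ e ∈ S, e / 16 = qT v ∧ (mqT (e % 16)).testBit j = false) ∨
      ∃ x ∈ L, ∃ e ∈ S, e / 16 = cT v (x / 32) ∧ (mcT (x % 32) (e % 16)).testBit j = false) := by
  induction L with
  | nil =>
    have h := filt_spec S (qT v) mqT M j
    exact ⟨h.1, fun h1 h2 => Or.inl (h.2 h1 h2)⟩
  | cons x L ih =>
    have : filtAll S v (x :: L) M = force (filtAll S v L M) (fun M' => ite' (Nat.beq M' 0) 0
      (filt S (cT v (x / 32)) (mcT (x % 32)) M')) := rfl
    rw [this, force_eq, ite'_eq]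
    have h := filt_spec S (cT v (x / 32)) (mcT (x % 32)) (filtAll S v L M) j
    have hw : ((∃ e ∈ S, e / 16 = qT v ∧ (mqT (e % 16)).testBit j = false) ∨
        ∃ x ∈ L, ∃ e ∈ S, e / 16 = cT v (x / 32) ∧ (mcT (x % 32) (e % 16)).testBit j = false) →
        ((∃ e ∈ S, e / 16 = qT v ∧ (mqT (e % 16)).testBit j = false) ∨
        ∃ y ∈ x :: L, ∃ e ∈ S, e / 16 = cT v (y / 32) ∧
          (mcT (y % 32) (e % 16)).testBit j = false) :=
      Or.imp id (fun ⟨y, hy, h⟩ => ⟨y, List.mem_cons_of_mem _ hy, h⟩)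
    split_ifs with h1
    · refine ⟨fun h => by simp at h, fun h2 _ => hw (ih.2 h2 ?_)⟩
      rw [Nat.eq_of_beq_eq_true h1]
      simp
    · refine ⟨fun h2 => ih.1 (h.1 h2), fun h2 h3 => ?_⟩
      cases h4 : (filtAll S v L M).testBit j with
      | false => exact hw (ih.2 h2 h4)
      | true => exact Or.inr ⟨x, List.mem_cons_self, h.2 h4 h3⟩

theorem sumReps_spec (P : ℕ) (h : ℕ → ℕ) (k : ℕ) : ∀ base, sumReps P h k base
    = ∑ x ∈ (Finset.range (2 ^ k)).filter (fun x => x &&& P = 0), h (base + x) := by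
  induction k with
  | zero =>
    intro base
    have : (Finset.range (2 ^ 0)).filter (fun x => x &&& P = 0) = {0} := by
      ext x
      simp only [pow_zero, Finset.range_one, Finset.mem_filter, Finset.mem_singleton]
      exact ⟨fun h => h.1, fun h => ⟨h, by simp [h]⟩⟩
    rw [this, Finset.sum_singleton]
    rfl
  | succ k ih =>
    intro base
    have : sumReps P h (k + 1) base = ite' (bit P k) (sumReps P h k base)
      (sumReps P h k base + force (base + 2 ^ k) (sumReps P h k)) := rfl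
    rw [this, ite'_eq, force_eq, bit_eq, ih, ih, pow_succ, mul_two, Finset.sum_filter,
      Finset.sum_filter, Finset.sum_filter, Finset.sum_range_add]
    have key : ∀ x ∈ Finset.range (2 ^ k),
        ((2 ^ k + x) &&& P = 0 ↔ P.testBit k = false ∧ x &&& P = 0) := by
      intro x hx
      rw [Finset.mem_range] at hx
      rw [and_eq_zero_iff, and_eq_zero_iff]
      simp only [testBit_two_pow_add' hx, Bool.or_eq_false_iff, decide_eq_false_iff_not]
      constructor
      · intro h1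
        refine ⟨?_, fun j hj => (h1 j hj).2⟩
        by_contra h2
        exact (h1 k (by simpa using h2)).1 rfl
      · rintro ⟨h1, h2⟩ j hj
        refine ⟨?_, h2 j hj⟩
        rintro rfl
        rw [h1] at hj
        exact Bool.noConfusion hj
    split_ifs with h1
    · rw [Finset.sum_eq_zero (s := Finset.range (2 ^ k))
        (f := fun x => if (2 ^ k + x) &&& P = 0 then h (base + (2 ^ k + x)) else 0), add_zero]
      intro x hx
      rw [if_neg]
      rw [key x hx, h1]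
      simp
    · congr 1
      refine Finset.sum_congr rfl (fun x hx => ?_)
      have h2 : P.testBit k = false := by simpa using h1
      simp only [key x hx, h2, true_and, add_assoc]

theorem sumMask_spec (M : ℕ) (h : ℕ → ℕ) (base k : ℕ) : sumMask M h base k
    = ∑ x ∈ (Finset.range k).filter (fun x => M.testBit x = true), h (base + x) := by
  induction k with
  | zero => rfl
  | succ k ih =>
    have : sumMask M h base (k + 1) = ite' (bit M k)
      (sumMask M h base k + force (base + k) h) (sumMask M h base k) := rfl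
    rw [this, ite'_eq, force_eq, bit_eq, ih, Finset.sum_filter, Finset.sum_filter,
      Finset.sum_range_succ]
    split_ifs <;> simp

theorem lowMask_spec : ∀ P < 32, ∀ j < 32, (lowMask P).testBit j = decide (j &&& P = 0) := by
  decide +kernel

theorem sum_range_mul (f : ℕ → ℕ) (m : ℕ) :
    ∑ x ∈ Finset.range (32 * m), f x
      = ∑ y ∈ Finset.range m, ∑ j ∈ Finset.range 32, f (32 * y + j) := by
  induction m with
  | zero => simp
  | succ m ih => rw [mul_add, mul_one, Finset.sum_range_add, ih, Finset.sum_range_succ (n := m)]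

theorem split_and (y j P : ℕ) (hj : j < 32) :
    (32 * y + j) &&& P = 0 ↔ y &&& (P / 32) = 0 ∧ j &&& (P % 32) = 0 := by
  have h1 : ((32 * y + j) &&& P) / 2 ^ 5 = y &&& (P / 32) := by
    rw [Nat.and_div_two_pow]
    congr 1
    omega
  have h2 : ((32 * y + j) &&& P) % 2 ^ 5 = j &&& (P % 32) := by
    rw [Nat.and_mod_two_pow]
    congr 1
    omega
  rw [← h1, ← h2]
  omega

/-- The list enumerates the codes of the elements of the subgroup. -/
def Rep (n : ℕ) (l : List ℕ) (S : Subgroup (X n × X n)) : Prop :=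
  ∀ t, t ∈ l ↔ t < 2 ^ (n + n) ∧ dec n t ∈ S

theorem rep_bot (n : ℕ) : Rep n [0] ⊥ := by
  intro t
  simp only [List.mem_singleton, mem_bot]
  constructor
  · rintro rfl
    exact ⟨Nat.two_pow_pos _, dec_zero⟩
  · rintro ⟨h1, h2⟩
    rw [← enc_dec h1, h2, enc_one]

theorem Rep.grow {n : ℕ} {l l' : List ℕ} {S : Subgroup (X n × X n)} (h : Rep n l S) {t : ℕ}
    (ht : t < 2 ^ (n + n)) (hl : ∀ x, x ∈ l' ↔ x ∈ l ∨ ∃ e ∈ l, x = e ^^^ t) :
    Rep n l' (S ⊔ zpowers (dec n t)) := by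
  intro x
  rw [hl, mem_sup_comm pair_mul_self]
  constructor
  · rintro (h1 | ⟨e, h1, rfl⟩)
    · exact ⟨((h x).1 h1).1, Or.inl ((h x).1 h1).2⟩
    · refine ⟨Nat.xor_lt_two_pow ((h e).1 h1).1 ht, Or.inr ?_⟩
      rw [dec_xor, mul_comm (dec n e), ← mul_assoc, pair_mul_self, one_mul]
      exact ((h e).1 h1).2
  · rintro ⟨h1, h2 | h2⟩
    · exact Or.inl ((h x).2 ⟨h1, h2⟩)
    · refine Or.inr ⟨t ^^^ x, (h _).2 ⟨Nat.xor_lt_two_pow ht h1, by rwa [dec_xor]⟩, ?_⟩
      rw [Nat.xor_comm t x, Nat.xor_assoc, Nat.xor_self, Nat.xor_zero]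

theorem Rep.enc_mem {n : ℕ} {l : List ℕ} {S : Subgroup (X n × X n)} (h : Rep n l S)
    {s : X n × X n} (hs : s ∈ S) : enc s ∈ l :=
  (h _).2 ⟨enc_lt s, by rwa [dec_enc]⟩

theorem Rep.fst_iff {n : ℕ} {l : List ℕ} {S : Subgroup (X n × X n)} (h : Rep n l S) {t : ℕ}
    (ht : t < 2 ^ (n + n)) :
    (∃ e ∈ l, (e ^^^ t) / 2 ^ n = 0) ↔ ∃ s ∈ S, (dec n t * s).1 = 1 := by
  constructor
  · rintro ⟨e, h1, h2⟩
    refine ⟨dec n e, ((h e).1 h1).2, ?_⟩
    rw [mul_comm, ← dec_xor, dec_fst_eq_one (Nat.xor_lt_two_pow ((h e).1 h1).1 ht)]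
    exact h2
  · rintro ⟨s, h1, h2⟩
    refine ⟨enc s, h.enc_mem h1, ?_⟩
    rw [← dec_fst_eq_one (Nat.xor_lt_two_pow (enc_lt s) ht), dec_xor, dec_enc, mul_comm]
    exact h2

theorem Rep.snd_iff {n : ℕ} {l : List ℕ} {S : Subgroup (X n × X n)} (h : Rep n l S) (t : ℕ) :
    (∃ e ∈ l, (e ^^^ t) % 2 ^ n = 0) ↔ ∃ s ∈ S, (dec n t * s).2 = 1 := by
  constructor
  · rintro ⟨e, h1, h2⟩
    refine ⟨dec n e, ((h e).1 h1).2, ?_⟩
    rw [mul_comm, ← dec_xor, dec_snd_eq_one]
    exact h2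
  · rintro ⟨s, h1, h2⟩
    refine ⟨enc s, h.enc_mem h1, ?_⟩
    rw [← dec_snd_eq_one, dec_xor, dec_enc, mul_comm]
    exact h2

end Pool.Agent.Lib.MP_882835_al
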