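import Pool.Agent.Lib.MP_882835_al.Spec1

/-!
Correctness of the enumeration program.
-/

namespace Pool.Agent.Lib.MP_882835_al

open Subgroup

open scoped Classical

/-- Invariant of the relation subgroup. -/
def SInv (b : Bool) (S : List ℕ) (w : ℕ) (SS : Subgroup (X 4 × X 4)) : Prop :=
  Rep 4 S SS ∧ Good b SS ∧ Nat.card SS = 2 ^ w

theorem addS_spec {b : Bool} {t : ℕ} (ht : t < 256) {S : List ℕ} {w : ℕ}
    {SS : Subgroup (X 4 × X 4)} (h : SInv b S w SS) (k : List ℕ → ℕ → ℕ) (R : ℕ)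
    (hk : ∀ S' w' SS', SInv b S' w' SS' → (∀ D, SS' ≤ D ↔ SS ≤ D ∧ dec 4 t ∈ D) → k S' w' = R)
    (h0 : (∀ D, Good b D → SS ≤ D → dec 4 t ∉ D) → R = 0) : addS b t S w k = R := by
  have ht' : t < 2 ^ (4 + 4) := ht
  rcases scan_spec b t S with ⟨h1, h2⟩ | ⟨h1, h2⟩ | ⟨h1, e, h2, h3, h4⟩
  · rw [addS, h1]
    show grow t S S (fun S' => k S' (Nat.succ w)) = R
    obtain ⟨l', h3, h4⟩ := grow_spec t S S (fun S' => k S' (Nat.succ w))
    rw [h3]
    have h5 := (good_sup_iff X.mul_self h.2.1 (dec 4 t)).2 ⟨by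
      intro h6
      obtain ⟨e, h7, h8⟩ := (h.1.fst_iff ht').2 h6
      exact (h2 e h7).1 h8, by
      rintro ⟨hb, h6⟩
      obtain ⟨e, h7, h8⟩ := (h.1.snd_iff t).2 h6
      exact (h2 e h7).2 ⟨hb, h8⟩⟩
    refine hk l' (w + 1) _ ⟨h.1.grow ht' h4, h5.2, ?_⟩ (fun D => ?_)
    · rw [card_sup_comm pair_mul_self h5.1, h.2.2]; ring
    · rw [sup_le_iff, zpowers_le]
  · rw [addS, h1]
    show k S w = R
    exact hk S w SS h (fun D => ⟨fun h3 => ⟨h3, h3 ((h.1 t).1 h2).2⟩, fun h3 => h3.1⟩)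
  · rw [addS, h1]
    show 0 = R
    symm
    apply h0
    intro D hD hS hm
    have he := (h.1 e).1 h2
    have hlt := Nat.xor_lt_two_pow he.1 ht'
    have h5 : dec 4 (e ^^^ t) ∈ D := by
      rw [dec_xor]; exact mul_mem (hS he.2) hm
    have h6 : dec 4 (e ^^^ t) = 1 := by
      rcases h4 with h4 | ⟨hb, h4⟩
      · exact hD.1 _ h5 ((dec_fst_eq_one hlt).2 h4)
      · exact hD.2 hb _ h5 (dec_snd_eq_one.2 h4)
    apply h3
    rw [← enc_dec hlt, h6, enc_one]

theorem addAll_spec {b : Bool} {u : ℕ} (hu : u < 1024) (L : List ℕ) (hL : ∀ x ∈ L, x < 1024)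
    (k : List ℕ → ℕ → ℕ) (R : ℕ) : ∀ {S : List ℕ} {w : ℕ} {SS : Subgroup (X 4 × X 4)},
    SInv b S w SS →
    (∀ S' w' SS', SInv b S' w' SS' →
      (∀ D, SS' ≤ D ↔ SS ≤ D ∧ ∀ x ∈ L, EE.prod.c (dec 5 u) (dec 5 x) ∈ D) → k S' w' = R) →
    ((∀ D, Good b D → SS ≤ D → ¬ ∀ x ∈ L, EE.prod.c (dec 5 u) (dec 5 x) ∈ D) → R = 0) →
    addAll b u L S w k = R := by
  induction L with
  | nil =>
    intro S w SS h hk _
    exact hk S w SS h (fun D => by simp)
  | cons x L ih =>
    intro S w SS h hk h0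
    have : addAll b u (x :: L) S w k = force (Cc u x)
      (fun t => addS b t S w (fun S' w' => addAll b u L S' w' k)) := rfl
    rw [this, force_eq]
    have hx := dec_Cc hu (hL x List.mem_cons_self)
    refine addS_spec hx.1 h _ R (fun S' w' SS' h1 h2 => ?_) (fun h1 => h0 (fun D h2 h3 h4 => ?_))
    · refine ih (fun y hy => hL y (List.mem_cons_of_mem _ hy)) h1 (fun S2 w2 SS2 h3 h4 => ?_)
        (fun h3 => h0 (fun D h4 h5 h6 => ?_))
      · refine hk S2 w2 SS2 h3 (fun D => ?_)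
        rw [h4, h2, hx.2]
        simp only [List.mem_cons, forall_eq_or_imp, and_assoc]
      · refine h3 D h4 ((h2 D).2 ⟨h5, ?_⟩) (fun y hy => h6 y (List.mem_cons_of_mem _ hy))
        rw [hx.2]
        exact h6 x List.mem_cons_self
    · refine h1 D h2 h3 ?_
      rw [hx.2]
      exact h4 x List.mem_cons_self

/-- Invariant of a state of the program. -/
structure St (b : Bool) (i : ℕ) (L EU : List ℕ) (P n a c : ℕ) (S : List ℕ) (w : ℕ)
    (U : Subgroup (X 5 × X 5)) (SS : Subgroup (X 4 × X 4)) : Prop where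
  ech : Ech i P U
  inv : EE.Inv b U n a c
  rep : Rep 5 EU U
  mem : ∀ x ∈ L, x < 1024 ∧ dec 5 x ∈ U
  gen : ∀ K : Subgroup (X 5 × X 5), (∀ x ∈ L, dec 5 x ∈ K) → U ≤ K
  sinv : SInv b S w SS
  adm : ∀ D, EE.prod.Adm U D ↔ SS ≤ D

/-- Correctness of a recursive call at level `i`. -/
def RecOK (b : Bool) (rec : ℕ → List ℕ → List ℕ → ℕ → ℕ → ℕ → ℕ → List ℕ → ℕ → ℕ) (i : ℕ) : Prop :=
  ∀ L EU P n a c S w U SS, St b i L EU P n a c S w U SS → rec i L EU P n a c S w = TT b i U

theorem St.adm_sup {b : Bool} {i : ℕ} {L EU : List ℕ} {P n a c : ℕ} {S : List ℕ} {w : ℕ}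
    {U : Subgroup (X 5 × X 5)} {SS : Subgroup (X 4 × X 4)} (h : St b i L EU P n a c S w U SS)
    (g : X 5 × X 5) (D : Subgroup (X 4 × X 4)) :
    EE.prod.Adm (U ⊔ zpowers g) D ↔
      SS ≤ D ∧ EE.prod.q g ∈ D ∧ ∀ x ∈ L, EE.prod.c g (dec 5 x) ∈ D := by
  rw [EE.prod.adm_sup_iff (L := {y | ∃ x ∈ L, dec 5 x = y}), h.adm]
  · simp
  · rintro _ ⟨x, hx, rfl⟩
    exact (h.mem x hx).2
  · intro K hK
    exact h.gen K (fun x hx => hK _ ⟨x, hx, rfl⟩)

theorem child_spec {b : Bool} {rec : ℕ → List ℕ → List ℕ → ℕ → ℕ → ℕ → ℕ → List ℕ → ℕ → ℕ}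
    {i : ℕ} (hrec : RecOK b rec (i + 1)) (hi : i < 10) {L EU : List ℕ} {P n a c : ℕ} {S : List ℕ}
    {w : ℕ} {U : Subgroup (X 5 × X 5)} {SS : Subgroup (X 4 × X 4)}
    (h : St b i L EU P n a c S w U SS) {u : ℕ} (hu : Lev i u) :
    child b rec i L EU P n a c S w u = TT b (i + 1) (U ⊔ zpowers (dec 5 u)) := by
  have hu1 : u < 1024 := hu.lt hi
  have hq := dec_Qc hu1
  rw [child, force_eq]
  refine addS_spec hq.1 h.sinv _ _ (fun S1 w1 SS1 h1 h2 => ?_)
    (fun h1 => TT_zero_of (fun D hD hadm => ?_))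
  · refine addAll_spec hu1 L (fun x hx => (h.mem x hx).1) _ _ h1 (fun S2 w2 SS2 h3 h4 => ?_)
      (fun h3 => TT_zero_of (fun D hD hadm => ?_))
    · rw [force_eq, force_eq, force_eq]
      obtain ⟨EU', h5, h6⟩ := grow_spec u EU EU (fun EU' => rec (Nat.succ i) (u :: L) EU'
        (Nat.lor P (Nat.pow 2 i)) (Nat.succ n)
        (ite' (hit (fun d => Nat.mod d 32) u EU) (Nat.succ a) a)
        (ite' (hit (fun d => Nat.div d 32) u EU) (Nat.succ c) c) S2 w2)
      rw [h5]
      refine hrec _ _ _ _ _ _ _ _ _ SS2 ⟨h.ech.step hi hu, ?_, h.rep.grow hu1 h6, ?_, ?_, h3, ?_⟩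
      · have h7 := EE.inv_step (X.card 4) h.inv (h.ech.not_mem hi hu)
        have e1 : ite' (hit (fun d => Nat.mod d 32) u EU) (Nat.succ a) a
            = if ∃ x ∈ U, (dec 5 u * x).2 = 1 then a + 1 else a := by
          rw [ite'_eq]
          exact if_congr ((hit_spec _ _ _).trans (h.rep.snd_iff u)) rfl rfl
        have e2 : ite' (hit (fun d => Nat.div d 32) u EU) (Nat.succ c) c
            = if ∃ x ∈ U, (dec 5 u * x).1 = 1 then c + 1 else c := by
          rw [ite'_eq]
          exact if_congr ((hit_spec _ _ _).trans (h.rep.fst_iff hu1)) rfl rfl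
        rw [e1, e2]
        convert h7
      · intro x hx
        rcases List.mem_cons.1 hx with rfl | hx
        · exact ⟨hu1, mem_sup_right (mem_zpowers _)⟩
        · exact ⟨(h.mem x hx).1, mem_sup_left (h.mem x hx).2⟩
      · intro K hK
        refine sup_le (h.gen K (fun x hx => hK x (List.mem_cons_of_mem _ hx))) ?_
        rw [zpowers_le]
        exact hK u List.mem_cons_self
      · intro D
        rw [h.adm_sup, h4, h2, hq.2, and_assoc]
    · rw [h.adm_sup] at hadm
      exact h3 D hD ((h2 D).2 ⟨hadm.1, by rw [hq.2]; exact hadm.2.1⟩) hadm.2.2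
  · rw [h.adm_sup] at hadm
    exact h1 D hD hadm.1 (by rw [hq.2]; exact hadm.2.1)

theorem clash {b : Bool} {S : List ℕ} {w : ℕ} {SS D : Subgroup (X 4 × X 4)} (h : SInv b S w SS)
    (hD : Good b D) (hS : SS ≤ D) {z z' e : ℕ} (hz' : z' < 16) (ht : 16 * z + z' < 256)
    (he : e ∈ S) (h1 : e / 16 = z) (hm : dec 4 (16 * z + z') ∈ D) : e % 16 = z' := by
  have he' := (h.1 e).1 he
  have ht' : 16 * z + z' < 2 ^ (4 + 4) := ht
  have hlt := Nat.xor_lt_two_pow he'.1 ht'
  have h5 : dec 4 (e ^^^ (16 * z + z')) ∈ D := by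
    rw [dec_xor]; exact mul_mem (hS he'.2) hm
  have h6 := hD.1 _ h5 ((dec_fst_eq_one hlt).2 (by
    rw [Nat.xor_div_two_pow, Nat.xor_eq_zero_iff]
    omega))
  have h7 := enc_dec hlt
  rw [h6, enc_one, eq_comm, Nat.xor_eq_zero_iff] at h7
  omega

theorem level_spec {b : Bool} {rec : ℕ → List ℕ → List ℕ → ℕ → ℕ → ℕ → ℕ → List ℕ → ℕ → ℕ}
    {i : ℕ} (hrec : RecOK b rec (i + 1)) (hi : i < 10) {L EU : List ℕ} {P n a c : ℕ} {S : List ℕ}
    {w : ℕ} {U : Subgroup (X 5 × X 5)} {SS : Subgroup (X 4 × X 4)}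
    (h : St b i L EU P n a c S w U SS) :
    level b rec i L EU P n a c S w = ∑ x ∈ (Finset.range (2 ^ i)).filter (fun x => x &&& P = 0),
      TT b (i + 1) (U ⊔ zpowers (dec 5 (2 ^ i + x))) := by
  have hch : ∀ x, x < 2 ^ i → child b rec i L EU P n a c S w (2 ^ i + x)
      = TT b (i + 1) (U ⊔ zpowers (dec 5 (2 ^ i + x))) :=
    fun x hx => child_spec hrec hi h (lev_add hx)
  rw [level, ite'_eq]
  split_ifs with h4
  · rw [sumReps_spec]
    exact Finset.sum_congr rfl (fun x hx => hch x (Finset.mem_range.1 (Finset.mem_filter.1 hx).1))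
  · rw [Nat.ble_eq] at h4
    obtain ⟨m, rfl⟩ : ∃ m, i = 5 + m := ⟨i - 5, by omega⟩
    have e0 : Nat.sub (5 + m) 5 = m := by simp
    have e1 : 2 ^ (5 + m) = 32 * 2 ^ m := by rw [pow_add]; norm_num
    rw [sumReps_spec, e0, Finset.sum_filter, Finset.sum_filter, e1, sum_range_mul]
    refine Finset.sum_congr rfl (fun y hy => ?_)
    rw [Finset.mem_range] at hy
    have hm : 2 ^ m ≤ 2 ^ 4 := Nat.pow_le_pow_right (by norm_num) (by omega)
    split_ifs with hy2
    · rw [force_eq, ite'_eq]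
      set v := Nat.pow 2 m + y with hv
      have hv' : v = 2 ^ m + y := rfl
      have hv32 : v < 32 := by omega
      set M := filtAll S v L (lowMask (Nat.mod P 32)) with hM
      have hsum : (if Nat.beq M 0 = true then 0
          else sumMask M (child b rec (5 + m) L EU P n a c S w) (Nat.mul 32 v) 32)
          = sumMask M (child b rec (5 + m) L EU P n a c S w) (Nat.mul 32 v) 32 := by
        split_ifs with h5
        · rw [sumMask_spec, Nat.eq_of_beq_eq_true h5]
          simp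
        · rfl
      rw [hsum, sumMask_spec, Finset.sum_filter]
      refine Finset.sum_congr rfl (fun j hj => ?_)
      rw [Finset.mem_range] at hj
      have hf := filtAll_spec S v L (lowMask (Nat.mod P 32)) j
      have hl : (lowMask (Nat.mod P 32)).testBit j = decide (j &&& (P % 32) = 0) :=
        lowMask_spec _ (Nat.mod_lt _ (by norm_num)) j hj
      have hy3 : y &&& (P / 32) = 0 := hy2
      have hu : Nat.mul 32 v + j = 32 * 2 ^ m + (32 * y + j) := by
        rw [Nat.mul_eq, hv']; ring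
      have hx : 32 * y + j < 2 ^ (5 + m) := by omega
      rw [← hM, hl] at hf
      simp only [split_and y j P hj, hy3, true_and]
      by_cases h6 : M.testBit j = true
      · have h7 : j &&& (P % 32) = 0 := by simpa using hf.1 h6
        rw [if_pos h6, if_pos h7, hu, ← e1]
        exact hch _ hx
      · rw [if_neg h6]
        split_ifs with h7
        · symm
          refine TT_zero_of (fun D hD hadm => ?_)
          rw [h.adm_sup, ← hu] at hadm
          have hu1 : Nat.mul 32 v + j < 1024 := by rw [Nat.mul_eq]; omega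
          have d1 : (Nat.mul 32 v + j) / 32 = v := by rw [Nat.mul_eq]; omega
          have d2 : (Nat.mul 32 v + j) % 32 = j := by rw [Nat.mul_eq]; omega
          rcases hf.2 (by simpa using h7) (by simpa using h6) with ⟨e, he, h8, h9⟩ | ⟨x, hx, e, he, h8, h9⟩
          · have hq := dec_Qc hu1
            have e3 : Qc (Nat.mul 32 v + j) = 16 * qT v + qT j := by
              show 16 * qT ((Nat.mul 32 v + j) / 32) + qT ((Nat.mul 32 v + j) % 32) = _
              rw [d1, d2]
            rw [← hq.2, e3] at hadm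
            rw [e3] at hq
            have h10 := clash h.sinv hD hadm.1 (Nat.mod_lt _ (by norm_num)) hq.1 he h8 hadm.2.1
            have h11 := (tab_all j hj j hj).2.2.2.1
            have h12 : e % 16 = qT j := h10
            rw [h12, h11] at h9
            exact Bool.noConfusion h9
          · have hx1 := (h.mem x hx).1
            have hq := dec_Cc hu1 hx1
            have e3 : Cc (Nat.mul 32 v + j) x = 16 * cT v (x / 32) + cT j (x % 32) := by
              show 16 * cT ((Nat.mul 32 v + j) / 32) (x / 32)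
                + cT ((Nat.mul 32 v + j) % 32) (x % 32) = _
              rw [d1, d2]
            have h13 := hadm.2.2 x hx
            rw [← hq.2, e3] at h13
            rw [e3] at hq
            have h10 := clash h.sinv hD hadm.1 (Nat.mod_lt _ (by norm_num)) hq.1 he h8 h13
            have h11 := (tab_all j hj (x % 32) (Nat.mod_lt _ (by norm_num))).2.2.2.2
            have h12 : e % 16 = cT j (x % 32) := h10
            rw [h12, h11] at h9
            exact Bool.noConfusion h9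
        · rfl
    · symm
      refine Finset.sum_eq_zero (fun j hj => if_neg ?_)
      rw [split_and y j P (Finset.mem_range.1 hj)]
      exact fun h => hy2 h.1

theorem go_succ (b : Bool) (k i : ℕ) (L EU : List ℕ) (P n a c : ℕ) (S : List ℕ) (w : ℕ) :
    go b (k + 1) i L EU P n a c S w
      = ite' b (go b k (i + 1) L EU P n a c S w)
          (ite' (Nat.ble i 4) (go b k (i + 1) L EU P n a c S w) 0)
        + level b (go b k) i L EU P n a c S w :=
  force_eq i (fun i => Nat.add (ite' b (go b k (Nat.succ i) L EU P n a c S w)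
    (ite' (Nat.ble i 4) (go b k (Nat.succ i) L EU P n a c S w) 0))
    (level b (go b k) i L EU P n a c S w))

theorem go_spec (b : Bool) (k : ℕ) : ∀ i, i + k = 10 → RecOK b (go b k) i := by
  induction k with
  | zero =>
    rintro i rfl L EU P n a c S w U SS h
    rw [TT_top, EE.leaf (X.card 4) h.inv h.sinv.2.1 h.sinv.2.2 h.adm]
    rfl
  | succ k ih =>
    intro i hi L EU P n a c S w U SS h
    have hrec := ih (i + 1) (by omega)
    have hskip := hrec L EU P n a c S w U SS
      ⟨h.ech.skip, h.inv, h.rep, h.mem, h.gen, h.sinv, h.adm⟩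
    rw [go_succ, level_spec hrec (by omega) h, TT_rec h.ech (by omega), hskip, ite'_eq, ite'_eq]
    congr 1
    split_ifs with h1 h2
    · rfl
    · rfl
    · rw [Nat.ble_eq] at h2
      rw [Bool.not_eq_true] at h1
      subst h1
      exact (TT_prune h.ech (by omega) (by omega)).symm

theorem go_total (b : Bool) : go b 10 0 [] [0] 0 0 0 0 [0] 0 = {H | EE.Tot b H}.ncard := by
  rw [← TT_bot]
  exact go_spec b 10 0 rfl _ _ _ _ _ _ _ _ ⊥ ⊥ ⟨ech_bot 0, EE.inv_bot b, rep_bot 5, by simp,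
    fun K _ => bot_le, ⟨rep_bot 4, good_bot b, by simp⟩, fun D => ⟨fun _ => bot_le,
      fun _ => EE.prod.adm_bot D⟩⟩

end Pool.Agent.Lib.MP_882835_al
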